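import Mathlib

/-!
# Rational approximations adapted to all return times
-/

set_option autoImplicit false

namespace Pool.Agent.Y283.CR

theorem floor_bd (α κ : ℝ) (b : ℕ) (hb : 0 < b) (hκ : 1 / κ < b) (hκ0 : 0 < κ) (c : ℤ)
    (hc : c = ⌊(b : ℝ) * α⌋ ∨ c = ⌊(b : ℝ) * α⌋ + 1) : |(c : ℝ) / b - α| < κ := by
  have hb0 : (0 : ℝ) < b := by exact_mod_cast hb
  have h1 := Int.floor_le ((b : ℝ) * α)
  have h2 := Int.lt_floor_add_one ((b : ℝ) * α)
  have h3 : (c : ℝ) / b - α = (c - b * α) / b := by field_simp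
  have h4 : 1 < κ * b := by
    rw [div_lt_iff₀ hκ0] at hκ
    linarith
  rw [h3, abs_lt]
  constructor
  · rw [lt_div_iff₀ hb0]
    rcases hc with h | h
    · rw [h]
      linarith
    · rw [h]
      push_cast
      linarith
  · rw [div_lt_iff₀ hb0]
    rcases hc with h | h
    · rw [h]
      linarith
    · rw [h]
      push_cast
      linarith

theorem arith (α κ : ℝ) (hκ : 0 < κ) : ∃ (S : Finset (ℤ × ℕ)) (K : ℕ),
    (∀ x ∈ S, 1 ≤ x.2 ∧ |(x.1 : ℝ) / x.2 - α| < κ) ∧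
    ∀ m : ℕ, 1 ≤ m → ∃ x ∈ S, ∃ k : ℕ, 1 ≤ k ∧ k ≤ K ∧ (x.2 : ℤ) ∣ m * x.1 + k ∧
      ∀ i j : ℕ, 0 < i → i < m → i * k = m * j → ¬ (x.2 : ℤ) ∣ i * x.1 + j := by
  obtain ⟨A, hA⟩ := exists_nat_gt (1 / κ)
  obtain ⟨b0, hb0A, hb0⟩ := Nat.exists_infinite_primes (A + 1)
  have : Fact b0.Prime := ⟨hb0⟩
  have hP : ∀ r : ZMod b0, ∃ k : ℕ, k.Prime ∧ b0 ≤ k ∧ (k : ZMod b0) = r := by
    intro r
    by_cases hr : r = 0
    · exact ⟨b0, hb0, le_rfl, by rw [hr]; simp⟩
    · obtain ⟨k, hk1, hk2, hk3⟩ := Nat.forall_exists_prime_gt_and_eq_mod (q := b0)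
        (isUnit_iff_ne_zero.2 hr) b0
      exact ⟨k, hk2, hk1.le, hk3⟩
  choose P hP1 hP2 hP3 using hP
  obtain ⟨B, hB⟩ : ∃ B : ℕ, ∀ r, P r ≤ B :=
    ⟨Finset.univ.sup P, fun r => Finset.le_sup (Finset.mem_univ r)⟩
  obtain ⟨L, hL⟩ := exists_nat_gt ((|α| + κ) * B)
  have hmem : ∀ (c : ℤ) (b : ℕ), b0 ≤ b → b ≤ B → |(c : ℝ) / b - α| < κ →
      (c, b) ∈ ((Finset.Icc (-(L : ℤ)) L) ×ˢ (Finset.Icc 1 B)).filter
        (fun x : ℤ × ℕ => |(x.1 : ℝ) / x.2 - α| < κ) := by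
    intro c b h1 h2 h3
    have hb1 : 1 ≤ b := hb0.one_lt.le.trans h1
    have hbr : (0 : ℝ) < b := by exact_mod_cast hb1
    have hbB : (b : ℝ) ≤ B := by exact_mod_cast h2
    have h4 : |(c : ℝ)| < L := by
      have h5 : (c : ℝ) = (c / b - α + α) * b := by field_simp; ring
      rw [h5, abs_mul, abs_of_pos hbr]
      have h6 : |(c : ℝ) / b - α + α| ≤ |α| + κ := by
        refine (abs_add_le _ _).trans ?_
        linarith
      have h7 : |(c : ℝ) / b - α + α| * b ≤ (|α| + κ) * B := by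
        have := abs_nonneg α
        gcongr
      linarith
    have h8 : |c| < (L : ℤ) := by exact_mod_cast h4
    rw [abs_lt] at h8
    simp only [Finset.mem_filter, Finset.mem_product, Finset.mem_Icc]
    exact ⟨⟨⟨h8.1.le, h8.2.le⟩, hb1, h2⟩, h3⟩
  have hlt : ∀ b : ℕ, b0 ≤ b → 1 / κ < b := by
    intro b hb
    have h1 : (A : ℝ) + 1 ≤ b := by exact_mod_cast (hb0A.trans hb)
    linarith
  refine ⟨((Finset.Icc (-(L : ℤ)) L) ×ˢ (Finset.Icc 1 B)).filter
        (fun x : ℤ × ℕ => |(x.1 : ℝ) / x.2 - α| < κ), B, ?_, ?_⟩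
  · intro x hx
    simp only [Finset.mem_filter, Finset.mem_product, Finset.mem_Icc] at hx
    exact ⟨hx.1.2.1, hx.2⟩
  · intro m hm
    by_cases hcase : ∃ b : ℕ, b.Prime ∧ b0 ≤ b ∧ b ≤ B ∧ b ∣ m
    · obtain ⟨b, hbp, hb1, hb2, m', hm'⟩ := hcase
      have hbpos : 0 < b := hbp.pos
      obtain ⟨c, hc, hcd⟩ : ∃ c : ℤ, (c = ⌊(b : ℝ) * α⌋ ∨ c = ⌊(b : ℝ) * α⌋ + 1) ∧
          ¬ (b : ℤ) ∣ m' * c + 1 := by
        by_cases h : (b : ℤ) ∣ m' * ⌊(b : ℝ) * α⌋ + 1
        · refine ⟨⌊(b : ℝ) * α⌋ + 1, Or.inr rfl, fun h2 => ?_⟩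
          have h3 : (b : ℤ) ∣ m' := by
            have := dvd_sub h2 h
            have e : (m' : ℤ) * (⌊(b : ℝ) * α⌋ + 1) + 1 - (m' * ⌊(b : ℝ) * α⌋ + 1) = m' := by ring
            rwa [e] at this
          have h4 : (b : ℤ) ∣ 1 := by
            have := dvd_sub h (h3.mul_right ⌊(b : ℝ) * α⌋)
            rwa [add_sub_cancel_left] at this
          have h5 : b ∣ 1 := by exact_mod_cast h4
          exact hbp.one_lt.ne' (Nat.dvd_one.1 h5)
        · exact ⟨_, Or.inl rfl, h⟩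
      refine ⟨(c, b), hmem c b hb1 hb2 (floor_bd α κ b hbpos (hlt b hb1) hκ c hc), b,
        hbpos, hb2, ?_, ?_⟩
      · show (b : ℤ) ∣ m * c + b
        refine dvd_add ?_ dvd_rfl
        rw [hm']
        push_cast
        exact ⟨m' * c, by ring⟩
      · intro i j hi him hij
        show ¬ (b : ℤ) ∣ i * c + j
        have h1 : i = m' * j := by
          rw [hm'] at hij
          apply Nat.eq_of_mul_eq_mul_left hbpos
          linarith
        have hj0 : 0 < j := by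
          rcases Nat.eq_zero_or_pos j with h | h
          · rw [h, mul_zero] at h1
            omega
          · exact h
        have hm'0 : 0 < m' := by
          rcases Nat.eq_zero_or_pos m' with h | h
          · rw [h, zero_mul] at h1
            omega
          · exact h
        have hjb : j < b := by
          by_contra hcon
          push Not at hcon
          have : b * m' ≤ m' * j := by
            rw [mul_comm]
            exact Nat.mul_le_mul_left _ hcon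
          omega
        have e : (i : ℤ) * c + j = j * (m' * c + 1) := by
          rw [h1]
          push_cast
          ring
        rw [e]
        intro h2
        rcases (Nat.prime_iff_prime_int.1 hbp).dvd_or_dvd h2 with h3 | h3
        · have h4 : b ∣ j := by exact_mod_cast h3
          have := Nat.le_of_dvd hj0 h4
          omega
        · exact hcd h3
    · have hno : ∀ b : ℕ, b.Prime → b0 ≤ b → b ≤ B → ¬ b ∣ m := by
        intro b h1 h2 h3 h4
        exact hcase ⟨b, h1, h2, h3, h4⟩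
      obtain ⟨c, hc⟩ : ∃ c : ℤ, c = ⌊(b0 : ℝ) * α⌋ := ⟨_, rfl⟩
      obtain ⟨k, hk⟩ : ∃ k : ℕ, k = P (-((m * c : ℤ) : ZMod b0)) := ⟨_, rfl⟩
      have hkp : k.Prime := by rw [hk]; exact hP1 _
      have hkb : b0 ≤ k := by rw [hk]; exact hP2 _
      have hkB : k ≤ B := by rw [hk]; exact hB _
      have hkm : ¬ k ∣ m := hno k hkp hkb hkB
      refine ⟨(c, b0), hmem c b0 le_rfl (hkb.trans hkB)
        (floor_bd α κ b0 hb0.pos (hlt b0 le_rfl) hκ c (Or.inl hc)), k, hkp.one_lt.le, hkB, ?_, ?_⟩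
      · show (b0 : ℤ) ∣ m * c + k
        rw [← ZMod.intCast_zmod_eq_zero_iff_dvd]
        have h1 : ((k : ℕ) : ZMod b0) = -((m * c : ℤ) : ZMod b0) := by rw [hk]; exact hP3 _
        push_cast at h1 ⊢
        rw [h1]
        ring
      · intro i j hi him hij
        exfalso
        have h1 : m ∣ i * k := ⟨j, hij⟩
        have h2 : m ∣ i := Nat.Coprime.dvd_of_dvd_mul_right
          ((Nat.Prime.coprime_iff_not_dvd hkp).2 hkm).symm h1
        have := Nat.le_of_dvd hi h2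
        omega

end Pool.Agent.Y283.CR
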