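import Pool.Agent.W320.SC.CF

/-! # The family of fibrewise Moebius perturbations, for flows instead of circle actions -/

set_option autoImplicit false

open scoped Manifold ContDiff Topology ComplexConjugate
open Filter Set Metric

universe u

namespace Pool.Agent.Y283.CR

open Pool.Agent.H718R2.G Pool.Agent.W564.SC Pool.Agent.W320.SC

/-- a smooth flow (parameter in `V 1`) -/
structure Act (n : ℕ) (N : Type*) [TopologicalSpace N] [ChartedSpace (V n) N]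
    (R : V 1 → N → N) : Prop where
  smooth : ContMDiff ((𝓡 1).prod (𝓡 n)) (𝓡 n) ∞ (fun q : V 1 × N => R q.1 q.2)
  zero : ∀ y, R 0 y = y
  add : ∀ a b y, R (a + b) y = R a (R b y)

section
variable {n : ℕ} {N : Type u} [TopologicalSpace N] [ChartedSpace (V n) N]
  {R : V 1 → N → N} {a : N → ℂ}

theorem Gm_smooth' (hR : Act n N R) (ha : ContMDiff (𝓡 n) 𝓘(ℝ, ℂ) ∞ a)
    {q : (ℂ × ℂ) × N} (h : q.1.1 + q.1.2 * conj (a q.2) ∈ Complex.slitPlane) :
    ContMDiffAt (𝓘(ℝ, ℂ × ℂ).prod (𝓡 n)) (𝓡 n) ∞ (Gm R a) q := by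
  have h1 : ContMDiffAt (𝓘(ℝ, ℂ × ℂ).prod (𝓡 n)) 𝓘(ℝ, (ℂ × ℂ) × ℂ) ∞
      (fun q : (ℂ × ℂ) × N => (q.1, a q.2)) q :=
    ContMDiffAt.prodMk_space contMDiffAt_fst (ha.contMDiffAt.comp q contMDiffAt_snd)
  have h0 : ContDiffAt ℝ ∞ gv ((fun q : (ℂ × ℂ) × N => (q.1, a q.2)) q) := gv_smooth h
  have h2 : ContMDiffAt (𝓘(ℝ, ℂ × ℂ).prod (𝓡 n)) (𝓡 1) ∞
      (fun q : (ℂ × ℂ) × N => gv (q.1, a q.2)) q :=
    ContDiffAt.comp_contMDiffAt (g := gv) (f := fun q : (ℂ × ℂ) × N => (q.1, a q.2)) h0 h1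
  have h3 : ContMDiffAt (𝓘(ℝ, ℂ × ℂ).prod (𝓡 n)) ((𝓡 1).prod (𝓡 n)) ∞
      (fun q : (ℂ × ℂ) × N => (gv (q.1, a q.2), q.2)) q :=
    h2.prodMk contMDiffAt_snd
  exact (hR.smooth.contMDiffAt (x := (gv (q.1, a q.2), q.2))).comp q h3

theorem Gm_inv' (hR : Act n N R) (ha1 : ∀ y, ‖a y‖ = 1)
    (ha2 : ∀ t y, a (R t y) = Complex.exp (2 * Real.pi * Complex.I * (t 0 : ℝ)) * a y)
    {α β : ℂ} (h : Nr α β) (y : N) : Gm R a ((conj α, -β), Gm R a ((α, β), y)) = y := by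
  have h1 : a (Gm R a ((α, β), y)) = mv α β (a y) := by
    rw [Gm, ha2]
    simp [gv, mv]
  have h2 : Gm R a ((conj α, -β), Gm R a ((α, β), y)) =
      R (gv ((conj α, -β), mv α β (a y))) (R (gv ((α, β), a y)) y) := by
    rw [← h1]
    rfl
  rw [h2, ← hR.add]
  have h3 : gv ((conj α, -β), mv α β (a y)) + gv ((α, β), a y) = 0 := by
    have := opp h (ha1 y)
    rw [gv, gv]
    ext i
    have hi : i = 0 := Subsingleton.elim _ _
    rw [hi]
    simpa using this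
  rw [h3, hR.zero]

end

theorem cf' (n : ℕ) (N : Type u) [TopologicalSpace N] [ChartedSpace (V n) N]
    [IsManifold (𝓡 n) ∞ N] (r : ℕ∞) (R : V 1 → N → N) (hR : Act n N R)
    (a : N → ℂ) (ha : ContMDiff (𝓡 n) 𝓘(ℝ, ℂ) ∞ a) (ha1 : ∀ y, ‖a y‖ = 1)
    (ha2 : ∀ t y, a (R t y) = Complex.exp (2 * Real.pi * Complex.I * (t 0 : ℝ)) * a y)
    (F : DiffM n N r) (hF2 : ∀ y, a (F y) = a y) :
    ∃ (H : ℂ × ℂ → DiffM n N r) (κ : ℝ), 0 < κ ∧ H 0 = F ∧ IsFam n N r H ∧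
      ∀ p : ℂ × ℂ, ‖p‖ < κ → ∀ y, H p y =
        R (EuclideanSpace.single 0 (Complex.arg (1 + p.1 + p.2 * (starRingEnd ℂ) (a y)) / Real.pi))
          (F y) := by
  have hr : ((r : WithTop ℕ∞)) ≤ ∞ := by exact_mod_cast le_top
  -- the diffeomorphisms
  have key : ∀ p : ℂ × ℂ, ∃ G : DiffM n N r, (‖p‖ < 1 / 4 →
      ∀ y, G y = Gm R a ((1 + p.1, p.2), F y)) ∧ (¬ ‖p‖ < 1 / 4 → G = F) := by
    intro p
    by_cases hp : ‖p‖ < 1 / 4
    · have hN : Nr (1 + p.1) p.2 := by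
        refine ⟨?_, ?_⟩
        · rw [add_sub_cancel_left]
          exact lt_of_le_of_lt (norm_fst_le p) hp
        · exact lt_of_le_of_lt (norm_snd_le p) hp
      have hN' := hN.flip
      have s1 : ContMDiff (𝓡 n) (𝓡 n) ∞ (fun y => Gm R a ((1 + p.1, p.2), y)) := by
        intro y
        have := (Gm_smooth' hR ha (q := ((1 + p.1, p.2), y)) (hN.slit (ha1 y))).comp y
          ((contMDiffAt_const (c := ((1 + p.1, p.2) : ℂ × ℂ))).prodMk contMDiffAt_id)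
        exact this
      have s2 : ContMDiff (𝓡 n) (𝓡 n) ∞ (fun y => Gm R a ((conj (1 + p.1), -p.2), y)) := by
        intro y
        have := (Gm_smooth' hR ha (q := ((conj (1 + p.1), -p.2), y)) (hN'.slit (ha1 y))).comp y
          ((contMDiffAt_const (c := ((conj (1 + p.1), -p.2) : ℂ × ℂ))).prodMk contMDiffAt_id)
        exact this
      have i1 := fun y => Gm_inv' hR ha1 ha2 hN y
      have i2 : ∀ y, Gm R a ((1 + p.1, p.2), Gm R a ((conj (1 + p.1), -p.2), y)) = y := by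
        intro y
        have := Gm_inv' hR ha1 ha2 hN' y
        rwa [Complex.conj_conj, neg_neg] at this
      let G1 : DiffM n N r :=
        { toFun := fun y => Gm R a ((1 + p.1, p.2), y)
          invFun := fun y => Gm R a ((conj (1 + p.1), -p.2), y)
          left_inv := i1
          right_inv := i2
          contMDiff_toFun := s1.of_le hr
          contMDiff_invFun := s2.of_le hr }
      exact ⟨F.trans G1, fun _ y => rfl, fun h => absurd hp h⟩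
    · exact ⟨F, fun h => absurd h hp, fun _ => rfl⟩
  choose H hH1 hH2 using key
  refine ⟨H, 1 / 4, by norm_num, ?_, ?_, ?_⟩
  · ext y
    rw [hH1 0 (by rw [norm_zero]; norm_num)]
    have : gv (((1 : ℂ) + (0 : ℂ × ℂ).1, (0 : ℂ × ℂ).2), a (F y)) = 0 := by
      rw [gv, ang]
      simp
    rw [Gm, this, hR.zero]
  · intro y
    have hq : Tendsto (fun q : (ℂ × ℂ) × N => ‖q.1‖) (𝓝 ((0 : ℂ × ℂ), y)) (𝓝 ‖(0 : ℂ × ℂ)‖) :=
      (continuous_fst.norm.tendsto _)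
    have hev : ∀ᶠ q : (ℂ × ℂ) × N in 𝓝 ((0 : ℂ × ℂ), y), ‖q.1‖ < 1 / 4 :=
      hq.eventually (gt_mem_nhds (by rw [norm_zero]; norm_num))
    have e1 : (fun q : (ℂ × ℂ) × N => H q.1 q.2) =ᶠ[𝓝 ((0 : ℂ × ℂ), y)]
        (fun q => Gm R a ((1 + q.1.1, q.1.2), F q.2)) := by
      filter_upwards [hev] with q hq
      exact hH1 q.1 hq q.2
    refine ContMDiffAt.congr_of_eventuallyEq ?_ e1
    have s1 : ContMDiffAt (𝓘(ℝ, ℂ × ℂ).prod (𝓡 n)) (𝓘(ℝ, ℂ × ℂ).prod (𝓡 n)) r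
        (fun q : (ℂ × ℂ) × N => (((1 + q.1.1, q.1.2) : ℂ × ℂ), F q.2)) ((0 : ℂ × ℂ), y) := by
      refine ContMDiffAt.prodMk ?_ ?_
      · have hc : ContDiff ℝ r (fun p : ℂ × ℂ => ((1 + p.1, p.2) : ℂ × ℂ)) :=
          (contDiff_const.add contDiff_fst).prodMk contDiff_snd
        exact hc.contDiffAt.comp_contMDiffAt contMDiffAt_fst
      · exact (F.contMDiff.contMDiffAt).comp _ contMDiffAt_snd
    have s2 : ContMDiffAt (𝓘(ℝ, ℂ × ℂ).prod (𝓡 n)) (𝓡 n) r (Gm R a)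
        (((1 + (0 : ℂ × ℂ).1, (0 : ℂ × ℂ).2) : ℂ × ℂ), F y) := by
      refine (Gm_smooth' hR ha ?_).of_le hr
      have hN : Nr (1 + (0 : ℂ × ℂ).1) (0 : ℂ × ℂ).2 := by
        constructor <;> simp
      exact hN.slit (ha1 _)
    exact ContMDiffAt.comp ((0 : ℂ × ℂ), y) s2 s1
  · intro p hp y
    rw [hH1 p hp y, Gm, gv, ang, hF2]

/-- The action of the circle, `b` times slower. -/
theorem act_slow {n : ℕ} {N : Type u} [TopologicalSpace N] [ChartedSpace (V n) N]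
    {R : V 1 → N → N} (hR : FreeTorus 1 n N R) (c : ℝ) : Act n N (fun t => R (c • t)) where
  smooth := by
    have h1 : ContMDiff ((𝓡 1).prod (𝓡 n)) ((𝓡 1).prod (𝓡 n)) ∞
        (fun q : V 1 × N => (c • q.1, q.2)) := by
      refine ContMDiff.prodMk ?_ contMDiff_snd
      have h2 : ContDiff ℝ ∞ (fun t : V 1 => c • t) := contDiff_const_smul c
      exact h2.contMDiff.comp contMDiff_fst
    exact hR.smooth.comp h1
  zero := fun y => by
    show R (c • 0) y = y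
    rw [smul_zero, hR.zero]
  add := fun s t y => by
    show R (c • (s + t)) y = R (c • s) (R (c • t) y)
    rw [smul_add, hR.add]

end Pool.Agent.Y283.CR
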