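import Pool.Agent.Y283.CR.Clock
import Pool.Agent.Y283.CR.Arith
import Pool.Agent.Y283.CR.Fam
import Pool.Agent.W564.SC.LibB
import Pool.Agent.W564.SC.LibC

/-!
# The closing lemma for `f × R_α` on `M × S¹`, `f` arbitrary
-/

set_option autoImplicit false

open scoped Manifold ContDiff Topology
open Filter Set Metric

universe u

namespace Pool.Agent.Y283.CR

open Pool.Agent.H718R2.G Pool.Agent.W564.SC Pool.Agent.W54.SC

/-- `exp (2 π i t)` -/
noncomputable def ee (t : ℝ) : ℂ := Complex.exp (2 * Real.pi * Complex.I * (t : ℝ))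

theorem ee_add (s t : ℝ) : ee (s + t) = ee s * ee t := by
  unfold ee
  rw [← Complex.exp_add]
  congr 1
  push_cast
  ring

theorem ee_int (n : ℤ) : ee n = 1 := by
  unfold ee
  rw [Complex.exp_eq_one_iff]
  exact ⟨n, by push_cast; ring⟩

theorem ee_zero : ee 0 = 1 := by
  have := ee_int 0
  simpa using this

theorem ee_norm (t : ℝ) : ‖ee t‖ = 1 := by
  unfold ee
  have : 2 * (Real.pi : ℂ) * Complex.I * (t : ℂ) = ((2 * Real.pi * t : ℝ) : ℂ) * Complex.I := by
    push_cast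
    ring
  rw [this, Complex.norm_exp_ofReal_mul_I]

theorem ee_pow (t : ℝ) (b : ℕ) : ee t ^ b = ee (b * t) := by
  unfold ee
  rw [← Complex.exp_nat_mul]
  congr 1
  push_cast
  ring

theorem ee_eq_one {t : ℝ} (h : ee t = 1) : ∃ m : ℤ, t = m := by
  unfold ee at h
  obtain ⟨l, hl⟩ := Complex.exp_eq_one_iff.1 h
  refine ⟨l, ?_⟩
  have h7 : (2 * Real.pi * Complex.I) ≠ 0 := Complex.two_pi_I_ne_zero
  have h8 : ((t : ℝ) : ℂ) = (l : ℂ) := by
    apply mul_left_cancel₀ h7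
    rw [hl]
    ring
  exact_mod_cast h8

/-- the elements of the finite set have a common positive lower bound -/
theorem fin_min {ι : Type*} (S : Finset ι) (f : ι → ℝ) (hf : ∀ x ∈ S, 0 < f x) :
    ∃ κ : ℝ, 0 < κ ∧ ∀ x ∈ S, κ ≤ f x := by
  classical
  induction S using Finset.induction_on with
  | empty => exact ⟨1, one_pos, fun x hx => by simp at hx⟩
  | insert a S _ ih =>
    obtain ⟨κ, h1, h2⟩ := ih (fun x hx => hf x (Finset.mem_insert_of_mem hx))
    refine ⟨min κ (f a), lt_min h1 (hf a (Finset.mem_insert_self _ _)), fun x hx => ?_⟩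
    rcases Finset.mem_insert.1 hx with h | h
    · rw [h]
      exact min_le_right _ _
    · exact (min_le_left _ _).trans (h2 x h)

theorem pow_sub_pow_le {x y : ℂ} (hx : ‖x‖ = 1) (hy : ‖y‖ = 1) (b : ℕ) :
    ‖x ^ b - y ^ b‖ ≤ b * ‖x - y‖ := by
  induction b with
  | zero => simp
  | succ b ih =>
    have e : x ^ (b + 1) - y ^ (b + 1) = x * (x ^ b - y ^ b) + (x - y) * y ^ b := by ring
    rw [e]
    refine (norm_add_le _ _).trans ?_
    rw [norm_mul, norm_mul, norm_pow, hx, hy, one_pow, one_mul, mul_one]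
    push_cast
    linarith

/-- nontrivial roots of unity are far from `1` -/
theorem root_far (b : ℕ) (hb : 1 ≤ b) (l : ℤ) (hl : ¬ (b : ℤ) ∣ l) :
    1 / (b : ℝ) ≤ ‖ee (l / b) - 1‖ := by
  have hbr : (0 : ℝ) < b := by exact_mod_cast hb
  have hbz : (0 : ℤ) < b := by exact_mod_cast hb
  obtain ⟨r, hr⟩ : ∃ r : ℕ, (r : ℤ) = l % b := ⟨(l % b).toNat, Int.toNat_of_nonneg
    (Int.emod_nonneg _ hbz.ne')⟩
  have hr0 : 0 < r := by
    rcases Nat.eq_zero_or_pos r with h | h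
    · exfalso
      apply hl
      apply Int.dvd_of_emod_eq_zero
      rw [← hr, h]
      rfl
    · exact h
  have hrb : r < b := by
    have := Int.emod_lt_of_pos l hbz
    rw [← hr] at this
    exact_mod_cast this
  have e1 : (l : ℝ) / b = (r : ℝ) / b + (l / b : ℤ) := by
    have h1 : (l : ℝ) = r + b * (l / b : ℤ) := by
      have h2 : (l : ℤ) = r + b * (l / b) := by
        rw [hr]
        exact (Int.emod_add_mul_ediv l b).symm
      exact_mod_cast h2
    rw [h1]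
    field_simp
  rw [e1, ee_add, ee_int, mul_one]
  have e2 : ee ((r : ℝ) / b) = Complex.exp (Complex.I * ((2 * Real.pi * r / b : ℝ) : ℂ)) := by
    unfold ee
    congr 1
    push_cast
    ring
  rw [e2, Complex.norm_exp_I_mul_ofReal_sub_one, Real.norm_eq_abs, abs_mul]
  have e3 : 2 * Real.pi * r / b / 2 = Real.pi * r / b := by ring
  rw [e3]
  have h11 := Pool.Agent.W335.SCM.sin_lower hr0 hrb
  have h12 := le_abs_self (Real.sin (Real.pi * r / b))
  have h13 : 1 / (b : ℝ) ≤ 2 * (2 / b) := by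
    rw [← mul_div_assoc]
    gcongr
    norm_num
  rw [abs_of_pos (by norm_num : (0 : ℝ) < 2)]
  linarith

theorem single_zero (t : ℝ) : ((EuclideanSpace.single (0 : Fin 1) t : V 1) 0 : ℝ) = t := by
  simp

theorem returns' (n : ℕ) (N : Type u) [TopologicalSpace N] [T2Space N] [CompactSpace N]
    [ChartedSpace (V n) N] [IsManifold (𝓡 n) ∞ N] (F : N → N) (hF : Continuous F)
    (R : V 1 → N → N) (hR : FreeTorus 1 n N R)
    (a : N → ℂ) (ha : Continuous a) (ha1 : ∀ y, ‖a y‖ = 1)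
    (haR : ∀ t y, a (R t y) = Complex.exp (2 * Real.pi * Complex.I * (t 0 : ℝ)) * a y)
    (hFR : ∀ t y, F (R t y) = R t (F y)) (z : N) (χ : OpenPartialHomeomorph N (V n))
    (hχ : GoodChart n N χ z)
    (hz : ∀ b : ℕ, 1 ≤ b → ∀ β : V 1, F^[b] z ≠ R β z)
    (hNW : ∀ W ∈ 𝓝 z, ∃ m : ℕ, 1 ≤ m ∧ ∃ y ∈ W, ∃ t : V 1, R t (F^[m] y) ∈ W)
    (W : Set N) (hW : W ∈ 𝓝 z) (M0 : ℕ) :
    ∃ m : ℕ, M0 ≤ m ∧ 1 ≤ m ∧ ∃ y ∈ W, a y = a z ∧ ∃ t : V 1, R t (F^[m] y) ∈ W ∧
      a (R t (F^[m] y)) = a z := by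
  have hFRi : ∀ (i : ℕ) t y, F^[i] (R t y) = R t (F^[i] y) := by
    intro i
    induction i with
    | zero => intro t y; rfl
    | succ i ih =>
      intro t y
      rw [Function.iterate_succ_apply', ih, hFR, Function.iterate_succ_apply']
  obtain ⟨τ, hτ⟩ : ∃ τ : N → V 1, ∀ y, τ y = EuclideanSpace.single (0 : Fin 1)
    (Complex.arg (a z * (starRingEnd ℂ) (a y)) / (2 * Real.pi)) := ⟨_, fun y => rfl⟩
  have hτz : τ z = 0 := by
    rw [hτ, conj_mul_self _ (ha1 z), Complex.arg_one, zero_div]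
    ext j
    simp
  have hτc : ContinuousAt τ z := by
    have e : τ = fun y => EuclideanSpace.single (0 : Fin 1)
      (Complex.arg (a z * (starRingEnd ℂ) (a y)) / (2 * Real.pi)) := funext hτ
    rw [e]
    refine cont_single.continuousAt.comp ?_
    refine ContinuousAt.div_const ?_ _
    have h1 : ContinuousAt Complex.arg (a z * (starRingEnd ℂ) (a z)) := by
      rw [conj_mul_self _ (ha1 z)]
      exact Complex.continuousAt_arg Complex.one_mem_slitPlane
    have h2 : ContinuousAt (fun y => a z * (starRingEnd ℂ) (a y)) z :=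
      (continuous_const.mul (Complex.continuous_conj.comp ha)).continuousAt
    exact ContinuousAt.comp (f := fun y => a z * (starRingEnd ℂ) (a y)) (g := Complex.arg) h1 h2
  have hRτ : ∀ y, a (R (τ y) y) = a z := by
    intro y
    rw [haR]
    have h1 : ((τ y) 0 : ℝ) = Complex.arg (a z * (starRingEnd ℂ) (a y)) / (2 * Real.pi) := by
      rw [hτ]
      simp
    rw [h1, exp_arg2 _ (by rw [norm_mul, RCLike.norm_conj, ha1, ha1, mul_one]), mul_assoc,
      mul_comm ((starRingEnd ℂ) (a y)), conj_mul_self _ (ha1 y), mul_one]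
  have hΦ : Tendsto (fun y : N => R (τ y) y) (𝓝 z) (𝓝 z) := by
    have h1 : ContinuousAt (fun y : N => (τ y, y)) z := hτc.prodMk continuousAt_id
    have h2 : ContinuousAt (fun q : V 1 × N => R q.1 q.2) (τ z, z) :=
      hR.smooth.continuous.continuousAt
    have h3 : ContinuousAt (fun y : N => R (τ y) y) z :=
      ContinuousAt.comp (f := fun y : N => (τ y, y))
        (g := fun q : V 1 × N => R q.1 q.2) h2 h1
    have h4 : R (τ z) z = z := by rw [hτz, hR.zero]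
    have h5 := h3.tendsto
    simp only [h4] at h5
    exact h5
  have hW1 : {y | R (τ y) y ∈ W} ∈ 𝓝 z := hΦ hW
  obtain ⟨ρ, hρ, hρ2⟩ := Pool.Agent.W298.SC.ret 1 n N R hR F hF hFR z hz χ hχ M0
  have hW2 : {y : N | y ∈ χ.source ∧ ‖χ y‖ < ρ} ∈ 𝓝 z := by
    have h5 : χ.source ∈ 𝓝 z := χ.open_source.mem_nhds hχ.src
    have h6 : ContinuousAt (fun y => ‖χ y‖) z := (χ.continuousAt hχ.src).norm
    have h7 : ∀ᶠ y in 𝓝 z, ‖χ y‖ < ρ := by
      have h8 : ‖χ z‖ < ρ := by rw [hχ.zero, norm_zero]; exact hρ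
      exact h6.eventually_lt_const h8
    filter_upwards [h5, h7] with y hy1 hy2
    exact ⟨hy1, hy2⟩
  obtain ⟨m, hm1, y, hy, t, hmy⟩ := hNW _ (inter_mem hW1 hW2)
  have hmM : M0 ≤ m := by
    by_contra hcon
    have := hρ2 y hy.2.1 hy.2.2 m hm1 (by omega) t hmy.2.1
    linarith [hmy.2.2]
  obtain ⟨y', hy'⟩ : ∃ y', y' = R t (F^[m] y) := ⟨_, rfl⟩
  refine ⟨m, hmM, hm1, R (τ y) y, hy.1, hRτ y, τ y' + (t + -(τ y)), ?_⟩
  have e : R (τ y' + (t + -(τ y))) (F^[m] (R (τ y) y)) = R (τ y') y' := by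
    rw [hFRi, hR.add, hR.add t, ← hR.add (-(τ y)), neg_add_cancel, hR.zero, ← hy']
  rw [e]
  refine ⟨?_, hRτ y'⟩
  rw [← hy'] at hmy
  exact hmy.1

theorem main (n : ℕ) (N : Type u) [TopologicalSpace N] [T2Space N] [CompactSpace N]
    [ChartedSpace (V n) N] [IsManifold (𝓡 n) ∞ N] (r : ℕ∞) (hr : 1 ≤ r)
    (R : V 1 → N → N) (hR : FreeTorus 1 n N R) (a : N → ℂ) (ha : ContMDiff (𝓡 n) 𝓘(ℝ, ℂ) ∞ a)
    (ha1 : ∀ y, ‖a y‖ = 1)
    (haR : ∀ t y, a (R t y) = Complex.exp (2 * Real.pi * Complex.I * (t 0 : ℝ)) * a y)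
    (F : DiffM n N r) (hFR : ∀ t y, F (R t y) = R t (F y)) (α : ℝ)
    (haF : ∀ y, a (F y) = Complex.exp (2 * Real.pi * Complex.I * (α : ℝ)) * a y) (z : N)
    (hNW : ∀ W ∈ 𝓝 z, ∃ m : ℕ, 1 ≤ m ∧ ∃ y ∈ W, ∃ t : V 1, R t (F^[m] y) ∈ W) :
    Closable n N r F z := by
  by_cases hper : ∃ b : ℕ, 1 ≤ b ∧ ∃ β : V 1, F^[b] z = R β z
  · obtain ⟨b, hb, β, hβ⟩ := hper
    exact Pool.Agent.W298.SC.bp t_NBHD Pool.Agent.W699.SC.gc Pool.Agent.W315.SC.tf 1 n N r hr R hR F
      hFR z b β hb hβ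
  have hz : ∀ b : ℕ, 1 ≤ b → ∀ β : V 1, F^[b] z ≠ R β z := by
    intro b hb β h
    exact hper ⟨b, hb, β, h⟩
  intro U hU hFU
  obtain ⟨χ, hχ⟩ := Pool.Agent.W699.SC.gc n N z
  have hac : Continuous a := ha.continuous
  have haR' : ∀ t y, a (R t y) = ee (t 0) * a y := haR
  have haF' : ∀ y, a (F y) = ee α * a y := haF
  have haz : a z ≠ 0 := by
    intro h0
    have := ha1 z
    rw [h0, norm_zero] at this
    exact zero_ne_one this
  -- the rotations
  obtain ⟨H0, hH0, hH00, hfam0⟩ := Pool.Agent.W315.SC.tf 1 n N r R hR F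
  obtain ⟨k', hk1, hkr, κ0, hκ0, hclose⟩ := t_NBHD n N r hr (V 1) H0 hfam0 χ z hχ U hU
    (by rw [hH00]; exact hFU)
  have hin : ∀ s : V 1, ‖s‖ < κ0 → H0 s ∈ U := by
    intro s hs
    have h1 := hclose s (fun _ => 0) (Diffeomorph.refl (𝓡 n) N r) hs
      ⟨contDiff_const, fun _ _ => rfl, fun j _ x => by
        have : iteratedFDeriv ℝ j (fun _ : V n => (0 : V n)) x = 0 := by
          rw [iteratedFDeriv_fun_zero]
          rfl
        rw [this, norm_zero]
        exact hκ0.le⟩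
      ⟨fun y hy => ⟨hy, by simp⟩, fun y _ => rfl⟩
    have h4 : (H0 s).trans (Diffeomorph.refl (𝓡 n) N r) = H0 s := by
      ext y
      rfl
    rwa [h4] at h1
  obtain ⟨S, K, hS, hSm⟩ := arith α κ0 hκ0
  -- the families
  have hfamilies : ∀ x : ℤ × ℕ, ∃ (H : ℂ × ℂ → DiffM n N r) (k : ℕ) (κ : ℝ), x ∈ S → (0 < κ ∧
      (∀ p : ℂ × ℂ, ‖p‖ < κ → ∀ y, ∃ T : V 1,
        T 0 = Complex.arg (1 + p.1 + p.2 * (starRingEnd ℂ) (a y ^ x.2)) / Real.pi / x.2 +
          ((x.1 : ℝ) / x.2 - α) ∧ H p y = R T (F y)) ∧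
      ∀ (s : ℂ × ℂ) (z' : N) (ρ : ℝ) (m : ℕ), ‖s‖ < κ → z' ∈ χ.source → ‖χ z'‖ < κ → 0 < ρ →
        ρ < κ → 1 ≤ m →
        (H s)^[m] z' ∈ χ.source → ‖χ ((H s)^[m] z') - χ z'‖ < κ * ρ ^ k →
        (∀ i, 0 < i → i < m → (H s)^[i] z' ∈ χ.source →
          2 * ρ ≤ ‖χ ((H s)^[i] z') - χ z'‖) →
        ∃ G ∈ U, IsPer G z) := by
    intro x
    by_cases hx : x ∈ S
    · obtain ⟨hx1, hx2⟩ := hS x hx
      have hbr : (0 : ℝ) < x.2 := by exact_mod_cast hx1
      obtain ⟨s, hs⟩ : ∃ s : V 1, s = EuclideanSpace.single (0 : Fin 1) ((x.1 : ℝ) / x.2 - α) :=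
        ⟨_, rfl⟩
      have hs0 : s 0 = (x.1 : ℝ) / x.2 - α := by rw [hs]; simp
      have hsn : ‖s‖ < κ0 := by
        rw [hs, EuclideanSpace.norm_single, Real.norm_eq_abs]
        exact hx2
      have hAct := act_slow hR (1 / (x.2 : ℝ))
      have e1 : ∀ y, a (H0 s y) = ee ((x.1 : ℝ) / x.2) * a y := by
        intro y
        rw [hH0, haF', haR', hs0, ← mul_assoc, ← ee_add]
        congr 2
        ring
      have h2 : ∀ y, a (H0 s y) ^ x.2 = a y ^ x.2 := by
        intro y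
        rw [e1, mul_pow, ee_pow]
        have : (x.2 : ℝ) * ((x.1 : ℝ) / x.2) = (x.1 : ℤ) := by field_simp
        rw [this, ee_int, one_mul]
      have h3 : ∀ (t : V 1) (y : N), (fun t => R ((1 / (x.2 : ℝ)) • t)) t y =
          R ((1 / (x.2 : ℝ)) • t) y := fun _ _ => rfl
      obtain ⟨H, κ1, hκ1, hH0', hfam, hH⟩ := cf' n N r (fun t => R ((1 / (x.2 : ℝ)) • t)) hAct
        (fun y => a y ^ x.2) (by
          have := (contDiff_id.pow x.2 : ContDiff ℝ ∞ (fun w : ℂ => w ^ x.2))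
          exact this.contMDiff.comp ha)
        (fun y => by rw [norm_pow, ha1, one_pow])
        (fun t y => by
          show a (R ((1 / (x.2 : ℝ)) • t) y) ^ x.2 = ee (t 0) * a y ^ x.2
          rw [haR', mul_pow, ee_pow]
          congr 2
          show (x.2 : ℝ) * ((1 / (x.2 : ℝ)) * t 0) = t 0
          field_simp)
        (H0 s) h2
      obtain ⟨k, hk, κ2, hκ2, hCL⟩ := t_CL n N r hr (ℂ × ℂ) H hfam χ z hχ U hU
        (by rw [hH0']; exact hin s hsn)
      refine ⟨H, k, min κ1 κ2, fun _ => ⟨lt_min hκ1 hκ2, ?_, ?_⟩⟩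
      · intro p hp y
        have h4 := hH p (hp.trans_le (min_le_left _ _)) y
        refine ⟨(1 / (x.2 : ℝ)) • EuclideanSpace.single 0
          (Complex.arg (1 + p.1 + p.2 * (starRingEnd ℂ) (a y ^ x.2)) / Real.pi) + s, ?_, ?_⟩
        · show (1 / (x.2 : ℝ)) * ((EuclideanSpace.single (0 : Fin 1)
            (Complex.arg (1 + p.1 + p.2 * (starRingEnd ℂ) (a y ^ x.2)) / Real.pi) : V 1) 0 : ℝ) +
              s 0 = _
          rw [single_zero, hs0]
          ring
        · rw [h4, hR.add]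
          show R _ (H0 s y) = R _ (R s (F y))
          rw [hH0, hFR]
      · intro s' z' ρ m h5 h6 h7 h8 h9 h10 h11 h12 h13
        exact hCL s' z' ρ m (h5.trans_le (min_le_right _ _)) h6 (h7.trans_le (min_le_right _ _)) h8
          (h9.trans_le (min_le_right _ _)) h10 h11
          (h12.trans_le (by
            have : (0 : ℝ) ≤ ρ ^ k := by positivity
            exact mul_le_mul_of_nonneg_right (min_le_right _ _) this)) h13
    · exact ⟨fun _ => F, 0, 1, fun h => absurd h hx⟩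
  choose H k κf hHf using hfamilies
  obtain ⟨κ, hκ, hκf⟩ := fin_min S κf (fun x hx => (hHf x hx).1)
  obtain ⟨κ', hκ'0, hκ'1, hκ'2⟩ : ∃ κ' : ℝ, 0 < κ' ∧ κ' ≤ κ ∧ κ' ≤ 1 / 4 :=
    ⟨min κ (1 / 4), lt_min hκ (by norm_num), min_le_left _ _, min_le_right _ _⟩
  obtain ⟨δ, M, hδ, hclock⟩ := clock κ' hκ'0 K
  -- uniform separation
  obtain ⟨η, hη, hη1⟩ := fin_min S (fun x => min δ 1 / x.2) (fun x hx => by
    have h1 := (hS x hx).1
    have : (0 : ℝ) < x.2 := by exact_mod_cast h1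
    have : 0 < min δ 1 := lt_min hδ one_pos
    positivity)
  -- the radius
  obtain ⟨ρ, hρ0, hρκ, hρa⟩ : ∃ ρ : ℝ, 0 < ρ ∧ ρ < κ ∧
      ∀ y ∈ χ.source, ‖χ y‖ < 3 * ρ → ‖a y - a z‖ < η := by
    have hc : ContinuousAt (fun x => a (χ.symm x)) (0 : V n) := by
      have h5 : ContinuousAt χ.symm (0 : V n) := by
        apply χ.continuousAt_symm
        exact hχ.ball (mem_closedBall_self (by norm_num))
      exact ContinuousAt.comp (g := a) (f := χ.symm) hac.continuousAt h5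
    have hz0 : χ.symm (0 : V n) = z := by
      rw [← hχ.zero]
      exact χ.left_inv hχ.src
    rw [Metric.continuousAt_iff] at hc
    obtain ⟨ε, hε, hε2⟩ := hc η hη
    refine ⟨min (ε / 3) (κ / 2), lt_min (by linarith) (by linarith),
      (min_le_right _ _).trans_lt (by linarith), ?_⟩
    intro y hy hy2
    have h5 : ‖χ y‖ < ε := by
      have : min (ε / 3) (κ / 2) ≤ ε / 3 := min_le_left _ _
      linarith
    have h6 := hε2 (x := χ y) (by rw [dist_zero_right]; exact h5)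
    rw [χ.left_inv hy, hz0, dist_eq_norm] at h6
    exact h6
  obtain ⟨ε', hε'0, hε'1⟩ := fin_min S (fun x => κ * ρ ^ (k x) / 2) (fun x _ => by positivity)
  obtain ⟨ε, hε0, hε1, hε2, hε3⟩ : ∃ ε : ℝ, 0 < ε ∧ ε ≤ ρ ∧ ε ≤ κ ∧ ε ≤ ε' := by
    refine ⟨min (min ρ κ) ε', lt_min (lt_min hρ0 hκ) hε'0,
      (min_le_left _ _).trans (min_le_left _ _), (min_le_left _ _).trans (min_le_right _ _),
      min_le_right _ _⟩
  have hW : {y : N | y ∈ χ.source ∧ ‖χ y‖ < ε} ∈ 𝓝 z := by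
    have h5 : χ.source ∈ 𝓝 z := χ.open_source.mem_nhds hχ.src
    have h6 : ContinuousAt (fun y => ‖χ y‖) z := (χ.continuousAt hχ.src).norm
    have h7 : ∀ᶠ y in 𝓝 z, ‖χ y‖ < ε := by
      have h8 : ‖χ z‖ < ε := by rw [hχ.zero, norm_zero]; exact hε0
      exact h6.eventually_lt_const h8
    filter_upwards [h5, h7] with y hy1 hy2
    exact ⟨hy1, hy2⟩
  obtain ⟨m, hmM, hm1, y, ⟨hyχ, hyε⟩, hay, t, ⟨hmyχ, hmyε⟩, hamy⟩ := returns' n N F F.continuous R
    hR a hac ha1 haR hFR z χ hχ hz hNW _ hW M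
  obtain ⟨x, hxS, kk, hkk1, hkkK, hdiv, hnd⟩ := hSm m hm1
  obtain ⟨hκx, hHx, hCL⟩ := hHf x hxS
  have hx1 := (hS x hxS).1
  have hbr : (0 : ℝ) < x.2 := by exact_mod_cast hx1
  obtain ⟨p, q, g, hpq, hg, hgj, hgi⟩ := hclock m hmM kk hkk1 hkkK
  have hp : ‖p‖ < 1 / 4 := (norm_fst_le (p, q)).trans_lt (hpq.trans_le hκ'2)
  have hq : ‖q‖ < 1 / 4 := (norm_snd_le (p, q)).trans_lt (hpq.trans_le hκ'2)
  obtain ⟨sp, hsp⟩ : ∃ sp : ℂ × ℂ, sp = (p, q * a z ^ x.2) := ⟨_, rfl⟩
  have hs : ‖sp‖ < κ' := by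
    rw [hsp]
    rw [Prod.norm_def] at hpq ⊢
    simp only at hpq ⊢
    rw [norm_mul, norm_pow, ha1, one_pow, mul_one]
    exact hpq
  have hsκ : ‖sp‖ < κf x := hs.trans_le (hκ'1.trans (hκf x hxS))
  have hpi : Real.pi ≠ 0 := Real.pi_ne_zero
  -- the orbit
  have horb : ∀ i : ℕ, (∃ T : V 1, (H x sp)^[i] y = R T (F^[i] y)) ∧
      a ((H x sp)^[i] y) ^ x.2 = a z ^ x.2 * g^[i] 1 ∧
      a ((H x sp)^[i] y) = a z * ee ((i * x.1 +
        (∑ l ∈ Finset.range i, Complex.arg (ze p q (g^[l] 1))) / Real.pi) / x.2) := by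
    intro i
    induction i with
    | zero =>
      refine ⟨⟨0, ?_⟩, ?_, ?_⟩
      · show y = R 0 y
        rw [hR.zero]
      · show a y ^ x.2 = a z ^ x.2 * 1
        rw [hay, mul_one]
      · show a y = _
        rw [hay]
        simp [ee_zero]
    | succ i ih =>
      obtain ⟨⟨T, hT⟩, hai, hbi⟩ := ih
      obtain ⟨y', hy'⟩ : ∃ y', y' = (H x sp)^[i] y := ⟨_, rfl⟩
      obtain ⟨w, hw⟩ : ∃ w, w = g^[i] 1 := ⟨_, rfl⟩
      rw [Function.iterate_succ_apply', Function.iterate_succ_apply', Function.iterate_succ_apply',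
        Finset.sum_range_succ]
      rw [← hy'] at hT hai hbi ⊢
      rw [← hw] at hai ⊢
      have hwn : ‖w‖ = 1 := by
        have : ‖a y' ^ x.2‖ = 1 := by rw [norm_pow, ha1, one_pow]
        rw [hai, norm_mul, norm_pow, ha1, one_pow, one_mul] at this
        exact this
      have hzn : ‖a z ^ x.2‖ = 1 := by rw [norm_pow, ha1, one_pow]
      have hζ : 1 + sp.1 + sp.2 * (starRingEnd ℂ) (a y' ^ x.2) = ze p q w := by
        rw [hsp, hai, map_mul]
        unfold ze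
        have h5 := conj_mul_self (a z ^ x.2) hzn
        linear_combination q * (starRingEnd ℂ) w * h5
      have hζ0 : ze p q w ≠ 0 := by
        intro h0
        unfold ze at h0
        have h5 : (1 : ℂ) = -(p + q * (starRingEnd ℂ) w) := by linear_combination h0
        have h6 : ‖(1 : ℂ)‖ ≤ ‖p‖ + ‖q‖ := by
          rw [h5, norm_neg]
          refine (norm_add_le _ _).trans ?_
          rw [norm_mul, RCLike.norm_conj, hwn, mul_one]
        rw [norm_one] at h6
        linarith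
      obtain ⟨T', hT'0, hT'⟩ := hHx sp hsκ y'
      rw [hζ] at hT'0
      have e1 : a (H x sp y') = ee (Complex.arg (ze p q w) / Real.pi / x.2 + (x.1 : ℝ) / x.2) *
          a y' := by
        rw [hT', haR', haF', hT'0, ← mul_assoc, ← ee_add]
        congr 2
        ring
      refine ⟨⟨T' + T, ?_⟩, ?_, ?_⟩
      · rw [hT', hT, hFR, ← hR.add]
      · rw [e1, mul_pow, hai, ee_pow, hg]
        have h6 : (x.2 : ℝ) * (Complex.arg (ze p q w) / Real.pi / x.2 + (x.1 : ℝ) / x.2) =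
            Complex.arg (ze p q w) / Real.pi + (x.1 : ℤ) := by
          field_simp
        rw [h6, ee_add, ee_int, mul_one]
        have h7 : ee (Complex.arg (ze p q w) / Real.pi) = ze p q w / (starRingEnd ℂ) (ze p q w) :=
          exp_arg _ hζ0
        rw [h7]
        ring
      · rw [e1, hbi, mul_left_comm, ← ee_add]
        congr 2
        push_cast
        field_simp
        ring
  -- the orbit comes back
  have hHm : (H x sp)^[m] y = R t (F^[m] y) := by
    obtain ⟨⟨T, hT⟩, -, hbm⟩ := horb m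
    rw [(hgj m kk rfl).2] at hbm
    obtain ⟨l, hl⟩ := hdiv
    have h1 : ((m : ℝ) * x.1 + Real.pi * kk / Real.pi) / x.2 = (l : ℤ) := by
      have h2 : (m : ℝ) * x.1 + kk = x.2 * l := by exact_mod_cast hl
      rw [mul_div_cancel_left₀ _ hpi, h2]
      field_simp
    rw [h1, ee_int, mul_one, hT] at hbm
    rw [hT]
    have h3 : ee (T 0) * a (F^[m] y) = ee (t 0) * a (F^[m] y) := by
      rw [← haR', ← haR', hbm, hamy]
    have h4 : a (F^[m] y) ≠ 0 := by
      intro h0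
      have := ha1 (F^[m] y)
      rw [h0, norm_zero] at this
      exact zero_ne_one this
    have h5 : ee (T 0) = ee (t 0) := mul_right_cancel₀ h4 h3
    have h6 : ee (T 0 - t 0) = 1 := by
      have h7 : ee (T 0 - t 0) * ee (t 0) = 1 * ee (t 0) := by
        rw [← ee_add, sub_add_cancel, one_mul, h5]
      have h8 : ee (t 0) ≠ 0 := by
        intro h0
        have := ee_norm (t 0)
        rw [h0, norm_zero] at this
        exact zero_ne_one this
      exact mul_right_cancel₀ h8 h7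
    obtain ⟨l', hl'⟩ := ee_eq_one h6
    have h9 : R (T - t) (R t (F^[m] y)) = R t (F^[m] y) := by
      apply (hR.free _ _).2
      intro j
      have hj : j = 0 := Subsingleton.elim _ _
      subst hj
      exact ⟨l', hl'⟩
    rw [← hR.add, sub_add_cancel] at h9
    exact h9
  have hρx : ε ≤ κf x * ρ ^ (k x) / 2 := by
    refine (hε3.trans (hε'1 x hxS)).trans ?_
    have : (0 : ℝ) ≤ ρ ^ (k x) := by positivity
    have := mul_le_mul_of_nonneg_right (hκf x hxS) this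
    linarith
  refine hCL sp y ρ m hsκ hyχ (hyε.trans_le (hε2.trans (hκf x hxS))) hρ0
    (hρκ.trans_le (hκf x hxS)) hm1 ?_ ?_ ?_
  · rw [hHm]
    exact hmyχ
  · rw [hHm]
    calc ‖χ (R t (F^[m] y)) - χ y‖ ≤ ‖χ (R t (F^[m] y))‖ + ‖χ y‖ := norm_sub_le _ _
      _ < ε + ε := add_lt_add hmyε hyε
      _ = 2 * ε := by ring
      _ ≤ κf x * ρ ^ (k x) := by linarith
  · intro i hi0 him hiχ
    by_contra hcon
    push Not at hcon
    have h5 : ‖χ ((H x sp)^[i] y)‖ < 3 * ρ := by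
      have h6 : χ ((H x sp)^[i] y) = (χ ((H x sp)^[i] y) - χ y) + χ y := by
        rw [sub_add_cancel]
      rw [h6]
      have h7 := norm_add_le (χ ((H x sp)^[i] y) - χ y) (χ y)
      linarith
    have h6 := hρa _ hiχ h5
    have hηx := hη1 x hxS
    obtain ⟨-, hai, hbi⟩ := horb i
    have hδ1 : 0 < min δ 1 := lt_min hδ one_pos
    by_cases hm : m ∣ i * kk
    · obtain ⟨j, hj⟩ := hm
      rw [(hgj i j hj).2, mul_div_cancel_left₀ _ hpi] at hbi
      have h7 := hnd i j hi0 him hj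
      have h8 := root_far x.2 hx1 _ h7
      rw [hbi] at h6
      have h9 : a z * ee (((i : ℝ) * x.1 + j) / x.2) - a z =
          a z * (ee (((i : ℝ) * x.1 + j) / x.2) - 1) := by ring
      rw [h9, norm_mul, ha1, one_mul] at h6
      push_cast at h8
      have h10 : min δ 1 / (x.2 : ℝ) ≤ 1 / x.2 := by
        gcongr
        exact min_le_right _ _
      linarith
    · have h7 := hgi i hm
      have h8 := pow_sub_pow_le (ha1 ((H x sp)^[i] y)) (ha1 z) x.2
      rw [hai] at h8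
      have h9 : a z ^ x.2 * g^[i] 1 - a z ^ x.2 = a z ^ x.2 * (g^[i] 1 - 1) := by ring
      rw [h9, norm_mul, norm_pow, ha1, one_pow, one_mul] at h8
      have h10 : δ / x.2 ≤ ‖a ((H x sp)^[i] y) - a z‖ := by
        rw [div_le_iff₀ hbr]
        linarith
      have h11 : min δ 1 / (x.2 : ℝ) ≤ δ / x.2 := by
        gcongr
        exact min_le_left _ _
      linarith

end Pool.Agent.Y283.CR
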