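import Pool.Agent.Y283.CR.Fam2
import Pool.Agent.Y283.CR.Main

/-! # Nonwandering circles of a circle action which is not free -/

set_option autoImplicit false

open scoped Manifold ContDiff Topology
open Filter Set Metric

universe u

namespace Pool.Agent.Y283.CR

open Pool.Agent.H718R2.G Pool.Agent.W564.SC Pool.Agent.W54.SC

section

variable {n : ℕ} {N : Type u} [TopologicalSpace N] [T2Space N]
    [ChartedSpace (V n) N] [IsManifold (𝓡 n) ∞ N] {R : ℝ → N → N} (hR : CircleAct n N R)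

include hR

theorem circ_tf (r : ℕ∞) (F : DiffM n N r) :
    ∃ H : ℝ → DiffM n N r, (∀ s y, H s y = F (R s y)) ∧ H 0 = F ∧ IsFam n N r H := by
  have hr : (r : WithTop ℕ∞) ≤ ∞ := by exact_mod_cast le_top
  have hRs : ∀ α : ℝ, ContMDiff (𝓡 n) (𝓡 n) ∞ (R α) := by
    intro α
    exact hR.smooth.comp (contMDiff_const.prodMk contMDiff_id)
  have hinv : ∀ α y, R (-α) (R α y) = y := by
    intro α y
    rw [← hR.add, neg_add_cancel, hR.zero]
  have hinv' : ∀ α y, R α (R (-α) y) = y := by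
    intro α y
    rw [← hR.add, add_neg_cancel, hR.zero]
  let Rd : ℝ → DiffM n N r := fun α =>
    { toFun := R α
      invFun := R (-α)
      left_inv := hinv α
      right_inv := hinv' α
      contMDiff_toFun := (hRs α).of_le hr
      contMDiff_invFun := (hRs (-α)).of_le hr }
  refine ⟨fun α => (Rd α).trans F, fun α y => rfl, ?_, ?_⟩
  · ext y
    change F (R 0 y) = F y
    rw [hR.zero]
  · intro y
    have h : ContMDiff (𝓘(ℝ, ℝ).prod (𝓡 n)) (𝓡 n) r (fun q : ℝ × N => F (R q.1 q.2)) :=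
      F.contMDiff.comp (hR.smooth.of_le hr)
    exact h _

theorem circ_ret [CompactSpace N] (F : N → N) (hF : Continuous F)
    (hcomm : ∀ t y, F (R t y) = R t (F y)) (z : N)
    (hz : ∀ b : ℕ, 1 ≤ b → ∀ β : ℝ, F^[b] z ≠ R β z) (χ : OpenPartialHomeomorph N (V n))
    (hχ : GoodChart n N χ z) (m : ℕ) : ∃ ρ : ℝ, 0 < ρ ∧
      ∀ y ∈ χ.source, ‖χ y‖ < ρ → ∀ i, 1 ≤ i → i ≤ m → ∀ γ : ℝ, R γ (F^[i] y) ∈ χ.source →
        ρ ≤ ‖χ (R γ (F^[i] y))‖ := by
  have hred : ∀ γ : ℝ, ∃ γ' ∈ Icc (0 : ℝ) 1, ∀ y, R γ y = R γ' y := by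
    intro γ
    refine ⟨Int.fract γ, ⟨Int.fract_nonneg _, (Int.fract_lt_one _).le⟩, fun y => ?_⟩
    conv_lhs => rw [← Int.fract_add_floor γ, hR.add, hR.int]
  have hRc : Continuous (fun q : ℝ × N => R q.1 q.2) := hR.smooth.continuous
  have hev : ∀ i ∈ Finset.Icc 1 m, ∀ᶠ p : N × N in 𝓝 (z, z), ∀ γ ∈ Icc (0 : ℝ) 1,
      R γ (F^[i] p.1) ≠ p.2 := by
    intro i hi
    refine isCompact_Icc.eventually_forall_of_forall_eventually fun γ _ => ?_
    have hc : Continuous (fun q : (N × N) × ℝ => R q.2 (F^[i] q.1.1)) :=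
      hRc.comp (continuous_snd.prodMk ((hF.iterate i).comp (continuous_fst.comp continuous_fst)))
    have hop : IsOpen {q : (N × N) × ℝ | R q.2 (F^[i] q.1.1) ≠ q.1.2} :=
      isOpen_ne_fun hc (continuous_snd.comp continuous_fst)
    refine hop.mem_nhds ?_
    change R γ (F^[i] z) ≠ z
    intro h1
    refine hz i (Finset.mem_Icc.1 hi).1 (-γ) ?_
    have h2 : R (-γ) (R γ (F^[i] z)) = F^[i] z := by
      rw [← hR.add, neg_add_cancel, hR.zero]
    rw [← h2, h1]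
  have hev2 : ∀ᶠ p : N × N in 𝓝 (z, z), ∀ i ∈ Finset.Icc 1 m, ∀ γ ∈ Icc (0 : ℝ) 1,
      R γ (F^[i] p.1) ≠ p.2 := (Filter.eventually_all_finset (Finset.Icc 1 m)).2 hev
  rw [nhds_prod_eq] at hev2
  obtain ⟨W, hW, hWp⟩ := (Filter.eventually_prod_self_iff
    (r := fun a b => ∀ i ∈ Finset.Icc 1 m, ∀ γ ∈ Icc (0 : ℝ) 1, R γ (F^[i] a) ≠ b)).1 hev2
  have h0 : (0 : V n) ∈ χ.target := by
    rw [← hχ.zero]
    exact χ.map_source hχ.src
  have hz0 : χ.symm 0 = z := by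
    rw [← hχ.zero]
    exact χ.left_inv hχ.src
  have hsymm : Tendsto χ.symm (𝓝 0) (𝓝 z) := by
    have := χ.symm.continuousAt (x := (0 : V n)) h0
    rw [ContinuousAt, hz0] at this
    exact this
  obtain ⟨ρ, hρ, hρW⟩ := Metric.mem_nhds_iff.1 (hsymm hW)
  refine ⟨ρ, hρ, fun y hy hyρ i hi1 him γ hγ => ?_⟩
  by_contra hlt
  push Not at hlt
  have hyW : y ∈ W := by
    have h1 : χ y ∈ ball (0 : V n) ρ := by rwa [mem_ball_zero_iff]
    have := hρW h1
    rwa [mem_preimage, χ.left_inv hy] at this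
  have hyW' : R γ (F^[i] y) ∈ W := by
    have h1 : χ (R γ (F^[i] y)) ∈ ball (0 : V n) ρ := by rwa [mem_ball_zero_iff]
    have := hρW h1
    rwa [mem_preimage, χ.left_inv hγ] at this
  obtain ⟨γ', hγ', he⟩ := hred γ
  exact hWp y hyW _ hyW' i (Finset.mem_Icc.2 ⟨hi1, him⟩) γ' hγ' (he _).symm

theorem circ_near [CompactSpace N] (r : ℕ∞) (hr : 1 ≤ r) (F : DiffM n N r) (z : N)
    (χ : OpenPartialHomeomorph N (V n)) (hχ : GoodChart n N χ z)
    (U : Set (DiffM n N r)) (hU : IsOpen[strongTop n N r] U) (hFU : F ∈ U) :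
    ∃ (H : ℝ → DiffM n N r) (κ : ℝ), 0 < κ ∧ (∀ s y, H s y = F (R s y)) ∧
      ∀ s, |s| < κ → H s ∈ U := by
  obtain ⟨H0, hH0, hH00, hfam0⟩ := circ_tf hR r F
  obtain ⟨k', hk1, hkr, κ0, hκ0, hclose⟩ := t_NBHD n N r hr ℝ H0 hfam0 χ z hχ U hU
    (by rw [hH00]; exact hFU)
  refine ⟨H0, κ0, hκ0, hH0, fun s hs => ?_⟩
  have h1 := hclose s (fun _ => 0) (Diffeomorph.refl (𝓡 n) N r) (by
      rw [Real.norm_eq_abs]; exact hs)
    ⟨contDiff_const, fun _ _ => rfl, fun j _ x => by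
      have : iteratedFDeriv ℝ j (fun _ : V n => (0 : V n)) x = 0 := by
        rw [iteratedFDeriv_fun_zero]
        rfl
      rw [this, norm_zero]
      exact hκ0.le⟩
    ⟨fun y hy => ⟨hy, by simp⟩, fun y _ => rfl⟩
  have h4 : (H0 s).trans (Diffeomorph.refl (𝓡 n) N r) = H0 s := by
    ext y
    rfl
  rwa [h4] at h1

theorem circ_bp [CompactSpace N] (r : ℕ∞) (hr : 1 ≤ r) (F : DiffM n N r)
    (hF : ∀ t y, F (R t y) = R t (F y)) (z : N) (a : ℕ) (β : ℝ) (ha : 1 ≤ a)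
    (hz : F^[a] z = R β z) : Closable n N r F z := by
  intro U hU hFU
  obtain ⟨χ, hχ⟩ := Pool.Agent.W699.SC.gc n N z
  obtain ⟨H, κ, hκ, hH, hin⟩ := circ_near hR r hr F z χ hχ U hU hFU
  have hit : ∀ (α : ℝ) (i : ℕ) (y : N), (H α)^[i] y = R ((i : ℝ) * α) (F^[i] y) := by
    intro α i
    induction i with
    | zero =>
      intro y
      simp [hR.zero]
    | succ i ih =>
      intro y
      rw [Function.iterate_succ_apply', ih, hH, Function.iterate_succ_apply', ← hR.add, hF]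
      congr 1
      push_cast
      ring
  have hFR : ∀ (i : ℕ) (γ : ℝ) (y : N), F^[i] (R γ y) = R γ (F^[i] y) := by
    intro i γ
    induction i with
    | zero => intro y; rfl
    | succ i ih =>
      intro y
      rw [Function.iterate_succ_apply, hF, ih, Function.iterate_succ_apply]
  have hFj : ∀ j : ℕ, F^[a * j] z = R ((j : ℝ) * β) z := by
    intro j
    induction j with
    | zero => simp [hR.zero]
    | succ j ih =>
      rw [mul_add, mul_one, Function.iterate_add_apply, hz, hFR, ih, ← hR.add]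
      congr 1
      push_cast
      ring
  have ha' : (0 : ℝ) < a := by exact_mod_cast ha
  obtain ⟨j, hj⟩ := exists_nat_gt (1 / (a * κ))
  have hj0 : (0 : ℝ) < j := lt_of_le_of_lt (by positivity) hj
  have hj1 : 1 ≤ j := by exact_mod_cast hj0
  obtain ⟨l, hl⟩ : ∃ l : ℤ, l = round ((j : ℝ) * β) := ⟨_, rfl⟩
  obtain ⟨α, hα⟩ : ∃ α : ℝ, α = ((a : ℝ) * j)⁻¹ * (l - j * β) := ⟨_, rfl⟩
  have hnorm : |α| < κ := by
    have h5 : |(l : ℝ) - j * β| ≤ 1 := by
      rw [hl, abs_sub_comm]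
      exact (abs_sub_round _).trans (by norm_num)
    rw [hα, abs_mul, abs_of_pos (by positivity)]
    have h7 : 1 < a * κ * j := by
      rw [div_lt_iff₀ (by positivity)] at hj
      linarith
    calc ((a : ℝ) * j)⁻¹ * |(l : ℝ) - j * β| ≤ ((a : ℝ) * j)⁻¹ * 1 :=
          mul_le_mul_of_nonneg_left h5 (by positivity)
      _ < ((a : ℝ) * j)⁻¹ * (a * κ * j) := mul_lt_mul_of_pos_left h7 (by positivity)
      _ = κ := by field_simp
  refine ⟨H α, hin α hnorm, a * j, Nat.mul_pos ha hj1, ?_⟩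
  rw [hit, hFj, ← hR.add]
  have h8 : ((a * j : ℕ) : ℝ) * α + (j : ℝ) * β = l := by
    rw [hα]
    push_cast
    field_simp
    ring
  rw [h8, hR.int]

theorem circ_returns [CompactSpace N] (F : N → N) (hF : Continuous F)
    (a : N → ℂ) (ha : Continuous a) (haR : ∀ t y, a (R t y) = ee t * a y)
    (hFR : ∀ t y, F (R t y) = R t (F y)) (hFa : ∀ y, ‖a (F y)‖ = ‖a y‖)
    (z : N) (ha1 : ‖a z‖ = 1) (χ : OpenPartialHomeomorph N (V n))
    (hχ : GoodChart n N χ z)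
    (hz : ∀ b : ℕ, 1 ≤ b → ∀ β : ℝ, F^[b] z ≠ R β z)
    (hNW : ∀ W ∈ 𝓝 z, ∃ m : ℕ, 1 ≤ m ∧ ∃ y ∈ W, ∃ t : ℝ, R t (F^[m] y) ∈ W)
    (W : Set N) (hW : W ∈ 𝓝 z) (M0 : ℕ) :
    ∃ m : ℕ, M0 ≤ m ∧ 1 ≤ m ∧ ∃ y ∈ W, ∃ t : ℝ, R t (F^[m] y) ∈ W ∧
      a (R t (F^[m] y)) = a y := by
  have hFRi : ∀ (i : ℕ) t y, F^[i] (R t y) = R t (F^[i] y) := by
    intro i
    induction i with
    | zero => intro t y; rfl
    | succ i ih =>
      intro t y
      rw [Function.iterate_succ_apply', ih, hFR, Function.iterate_succ_apply']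
  have hFai : ∀ (i : ℕ) y, ‖a (F^[i] y)‖ = ‖a y‖ := by
    intro i y
    induction i with
    | zero => rfl
    | succ i ih => rw [Function.iterate_succ_apply', hFa, ih]
  obtain ⟨τ, hτ⟩ : ∃ τ : N → ℝ, ∀ y, τ y =
    Complex.arg (a z * (starRingEnd ℂ) (a y)) / (2 * Real.pi) := ⟨_, fun y => rfl⟩
  have hτz : τ z = 0 := by
    rw [hτ, conj_mul_self _ ha1, Complex.arg_one, zero_div]
  have hτc : ContinuousAt τ z := by
    have e : τ = fun y => Complex.arg (a z * (starRingEnd ℂ) (a y)) / (2 * Real.pi) := funext hτ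
    rw [e]
    refine ContinuousAt.div_const ?_ _
    have h1 : ContinuousAt Complex.arg (a z * (starRingEnd ℂ) (a z)) := by
      rw [conj_mul_self _ ha1]
      exact Complex.continuousAt_arg Complex.one_mem_slitPlane
    have h2 : ContinuousAt (fun y => a z * (starRingEnd ℂ) (a y)) z :=
      (continuous_const.mul (Complex.continuous_conj.comp ha)).continuousAt
    exact ContinuousAt.comp (f := fun y => a z * (starRingEnd ℂ) (a y)) (g := Complex.arg) h1 h2
  have hRτ : ∀ y, a (R (τ y) y) = ‖a y‖ * a z := by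
    intro y
    rw [haR, hτ]
    by_cases h0 : a y = 0
    · rw [h0]
      simp
    · have hn : ‖a y‖ ≠ 0 := norm_ne_zero_iff.2 h0
      have hw : a z * (starRingEnd ℂ) (a y) = ‖a y‖ *
          Complex.exp ((Complex.arg (a z * (starRingEnd ℂ) (a y)) : ℂ) * Complex.I) := by
        have h3 := Complex.norm_mul_exp_arg_mul_I (a z * (starRingEnd ℂ) (a y))
        rw [norm_mul, RCLike.norm_conj, ha1, one_mul] at h3
        exact h3.symm
      have he : ee (Complex.arg (a z * (starRingEnd ℂ) (a y)) / (2 * Real.pi)) =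
          Complex.exp ((Complex.arg (a z * (starRingEnd ℂ) (a y)) : ℂ) * Complex.I) := by
        unfold ee
        congr 1
        have hpi : (Real.pi : ℂ) ≠ 0 := by exact_mod_cast Real.pi_ne_zero
        push_cast
        field_simp
      rw [he]
      have hnc : ((‖a y‖ : ℝ) : ℂ) ≠ 0 := by exact_mod_cast hn
      apply mul_left_cancel₀ hnc
      rw [← mul_assoc, ← hw]
      have h4 : a y * (starRingEnd ℂ) (a y) = ((‖a y‖ ^ 2 : ℝ) : ℂ) := by
        rw [Complex.mul_conj, Complex.normSq_eq_norm_sq]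
      push_cast at h4
      linear_combination a z * h4
  have hΦ : Tendsto (fun y : N => R (τ y) y) (𝓝 z) (𝓝 z) := by
    have h1 : ContinuousAt (fun y : N => (τ y, y)) z := hτc.prodMk continuousAt_id
    have h2 : ContinuousAt (fun q : ℝ × N => R q.1 q.2) (τ z, z) :=
      hR.smooth.continuous.continuousAt
    have h3 : ContinuousAt (fun y : N => R (τ y) y) z :=
      ContinuousAt.comp (f := fun y : N => (τ y, y))
        (g := fun q : ℝ × N => R q.1 q.2) h2 h1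
    have h4 : R (τ z) z = z := by rw [hτz, hR.zero]
    have h5 := h3.tendsto
    simp only [h4] at h5
    exact h5
  have hW1 : {y | R (τ y) y ∈ W} ∈ 𝓝 z := hΦ hW
  obtain ⟨ρ, hρ, hρ2⟩ := circ_ret hR F hF hFR z hz χ hχ M0
  have hW2 : {y : N | y ∈ χ.source ∧ ‖χ y‖ < ρ} ∈ 𝓝 z := by
    have h5 : χ.source ∈ 𝓝 z := χ.open_source.mem_nhds hχ.src
    have h6 : ContinuousAt (fun y => ‖χ y‖) z := (χ.continuousAt hχ.src).norm
    have h7 : ∀ᶠ y in 𝓝 z, ‖χ y‖ < ρ := by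
      have h8 : ‖χ z‖ < ρ := by rw [hχ.zero, norm_zero]; exact hρ
      exact h6.eventually_lt_const h8
    filter_upwards [h5, h7] with y hy1 hy2
    exact ⟨hy1, hy2⟩
  obtain ⟨m, hm1, y, hy, t, hmy⟩ := hNW _ (inter_mem hW1 hW2)
  have hmM : M0 ≤ m := by
    by_contra hcon
    have := hρ2 y hy.2.1 hy.2.2 m hm1 (by omega) t hmy.2.1
    linarith [hmy.2.2]
  obtain ⟨y', hy'⟩ : ∃ y', y' = R t (F^[m] y) := ⟨_, rfl⟩
  refine ⟨m, hmM, hm1, R (τ y) y, hy.1, τ y' + (t + -(τ y)), ?_⟩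
  have e : R (τ y' + (t + -(τ y))) (F^[m] (R (τ y) y)) = R (τ y') y' := by
    rw [hFRi, hR.add, hR.add t, ← hR.add (-(τ y)), neg_add_cancel, hR.zero, ← hy']
  rw [e]
  refine ⟨?_, ?_⟩
  · rw [← hy'] at hmy
    exact hmy.1
  · rw [hRτ, hRτ]
    congr 2
    rw [hy', haR, norm_mul, ee_norm, one_mul, hFai]

end

end Pool.Agent.Y283.CR
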