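import Pool.Agent.W335.SCM.Moeb

/-!
# Elliptic Moebius maps close to the identity with arbitrary real period
-/

set_option autoImplicit false

namespace Pool.Agent.Y283.CR

open Complex Pool.Agent.W335.SCM

/-- the coefficient -/
noncomputable def ze (p q w : ℂ) : ℂ := 1 + p + q * (starRingEnd ℂ) w

theorem ze_mul {s : ℝ} (h0 : 0 ≤ s) (h1 : s < 1) {e v : ℂ} (he : ‖e‖ = 1) (hv : ‖v‖ = 1) {p q : ℂ}
    (hp : p = (e - s ^ 2 * (starRingEnd ℂ) e) / (1 - s ^ 2) - 1)
    (hq : q = s * (e - (starRingEnd ℂ) e) / (1 - s ^ 2)) :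
    ze p q (Mm s v) * (1 - s * (starRingEnd ℂ) v) =
      e * (1 - s * (starRingEnd ℂ) (e ^ 2 * v)) := by
  have hv1 := mul_conj_one hv
  have he1 := mul_conj_one he
  have hvc : ‖(starRingEnd ℂ) v‖ = 1 := by rw [RCLike.norm_conj]; exact hv
  have n1 := one_sub_ne h0 h1 hv
  have n2 := sub_ne h0 h1 hv
  have n3 := sub_ne h0 h1 hvc
  have n5 : (1 : ℂ) - (s : ℂ) ^ 2 ≠ 0 := by
    intro h
    have h2 : (1 : ℝ) - s ^ 2 = 0 := by exact_mod_cast h
    nlinarith
  unfold ze
  rw [map_mul, map_pow]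
  set E : ℂ := (starRingEnd ℂ) e with hE
  set W : ℂ := (starRingEnd ℂ) v with hW
  have n4 := one_sub_ne h0 h1 hvc
  have c1 : (starRingEnd ℂ) (Mm s v) = (1 - s * v) / (v - s) := by
    unfold Mm
    rw [map_div₀, map_sub, map_sub, map_mul, map_one, Complex.conj_ofReal, ← hW,
      div_eq_div_iff n4 n2]
    linear_combination (1 - (s : ℂ) ^ 2) * hv1
  have c2 : 1 + p + q * (starRingEnd ℂ) (Mm s v) = (e * v - s * E) / (v - s) := by
    rw [c1, hp, hq]
    field_simp
    ring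
  rw [c2, div_mul_eq_mul_div, div_eq_iff n2]
  linear_combination (-(s : ℂ) * e + s * E) * hv1 + (s * E * W * v - s ^ 2 * E * W) * he1

theorem re_pos_of {z : ℂ} (h : ‖z - 1‖ < 1) : 0 < z.re := by
  have h1 := (abs_le.1 (Complex.abs_re_le_norm (z - 1))).1
  have h2 : (z - 1).re = z.re - 1 := by simp
  rw [h2] at h1
  linarith

theorem arg_abs_lt {z : ℂ} (h : 0 < z.re) : |Complex.arg z| < Real.pi / 2 := by
  rw [Complex.abs_arg_lt_pi_div_two_iff]
  exact Or.inl h

/-- the correction of the angle -/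
noncomputable def ac (s : ℝ) (v : ℂ) : ℝ := Complex.arg (1 - s * (starRingEnd ℂ) v)

theorem arg_ze {s : ℝ} (h0 : 0 ≤ s) (h1 : s < 1) {θ : ℝ} (hθ0 : 0 ≤ θ) (hθ1 : θ < Real.pi / 2)
    {e v : ℂ} (he : e = Complex.exp ((θ : ℂ) * Complex.I)) (hv : ‖v‖ = 1) {p q : ℂ}
    (hp : p = (e - s ^ 2 * (starRingEnd ℂ) e) / (1 - s ^ 2) - 1)
    (hq : q = s * (e - (starRingEnd ℂ) e) / (1 - s ^ 2)) (hre : 0 < (ze p q (Mm s v)).re) :
    Complex.arg (ze p q (Mm s v)) = θ + ac s (e ^ 2 * v) - ac s v := by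
  have hpi := Real.pi_pos
  have hen : ‖e‖ = 1 := by rw [he]; exact Complex.norm_exp_ofReal_mul_I _
  have hvc : ‖(starRingEnd ℂ) v‖ = 1 := by rw [RCLike.norm_conj]; exact hv
  have hev : ‖e ^ 2 * v‖ = 1 := by rw [norm_mul, norm_pow, hen, hv]; norm_num
  have hevc : ‖(starRingEnd ℂ) (e ^ 2 * v)‖ = 1 := by rw [RCLike.norm_conj]; exact hev
  have key := ze_mul h0 h1 hen hv hp hq
  have hr : ∀ u : ℂ, ‖u‖ = 1 → 0 < (1 - (s : ℂ) * u).re := by
    intro u hu
    apply re_pos_of
    rw [sub_sub_cancel_left, norm_neg, norm_mul, hu, mul_one, Complex.norm_real,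
      Real.norm_of_nonneg h0]
    exact h1
  have hB := hr _ hvc
  have hD := hr _ hevc
  have nz : ∀ u : ℂ, 0 < u.re → u ≠ 0 := by
    intro u hu h
    rw [h] at hu
    simp at hu
  have ha : Complex.arg e = θ := by
    rw [he, Complex.arg_exp_mul_I]
    rw [toIocMod_eq_self]
    constructor
    · linarith
    · linarith
  have e1 : ((Complex.arg (ze p q (Mm s v)) + Complex.arg (1 - s * (starRingEnd ℂ) v) : ℝ) :
      Real.Angle) = ((Complex.arg e + Complex.arg (1 - s * (starRingEnd ℂ) (e ^ 2 * v)) : ℝ) :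
      Real.Angle) := by
    rw [Real.Angle.coe_add, Real.Angle.coe_add, ← Complex.arg_mul_coe_angle (nz _ hre) (nz _ hB),
      ← Complex.arg_mul_coe_angle (by intro h; rw [h] at hen; simp at hen) (nz _ hD), key]
  rw [Real.Angle.angle_eq_iff_two_pi_dvd_sub] at e1
  obtain ⟨k, hk⟩ := e1
  have a1 := abs_lt.1 (arg_abs_lt hre)
  have a2 := abs_lt.1 (arg_abs_lt hB)
  have a3 := abs_lt.1 (arg_abs_lt hD)
  have hk0 : k = 0 := by
    have b1 : (k : ℝ) < 1 := by
      by_contra hcon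
      push Not at hcon
      have : 2 * Real.pi * 1 ≤ 2 * Real.pi * k := by
        apply mul_le_mul_of_nonneg_left hcon (by positivity)
      rw [ha] at hk
      linarith [a1.2, a2.2, a3.1]
    have b2 : (-1 : ℝ) < k := by
      by_contra hcon
      push Not at hcon
      have : 2 * Real.pi * k ≤ 2 * Real.pi * (-1) := by
        apply mul_le_mul_of_nonneg_left hcon (by positivity)
      rw [ha] at hk
      linarith [a1.1, a2.1, a3.2]
    have b3 : k < 1 := by exact_mod_cast b1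
    have b4 : -1 < k := by exact_mod_cast b2
    omega
  rw [hk0, ha] at hk
  unfold ac
  push_cast at hk
  linarith

theorem ac_one {s : ℝ} (h1 : s < 1) : ac s 1 = 0 := by
  unfold ac
  rw [map_one, mul_one]
  have : (1 : ℂ) - (s : ℂ) = ((1 - s : ℝ) : ℂ) := by push_cast; ring
  rw [this]
  exact Complex.arg_ofReal_of_nonneg (by linarith)

/-- the angle corrections telescope; the orbit of `1` -/
theorem orbit (κ : ℝ) (hκ : 0 < κ) (hκ1 : κ ≤ 1 / 4) (T : ℝ) (hT1 : 2 / (κ / 32) < T)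
    (hT2 : (2 : ℝ) < T) (hT3 : 32 / κ < T) :
    ∃ (s : ℝ) (p q e : ℂ) (g : ℂ → ℂ), 0 ≤ s ∧ s < 1 ∧ 1 - s = 1 / (κ / 32 * T) ∧ ‖(p, q)‖ < κ ∧
      e = Complex.exp (((Real.pi / T : ℝ) : ℂ) * Complex.I) ∧
      (∀ w, g w = w * (ze p q w / (starRingEnd ℂ) (ze p q w))) ∧
      (∀ i : ℕ, g^[i] 1 = Mm s ((e ^ 2) ^ i)) ∧
      ∀ i : ℕ, ∑ l ∈ Finset.range i, Complex.arg (ze p q (g^[l] 1)) =
        i * (Real.pi / T) + ac s ((e ^ 2) ^ i) := by
  have hpi := Real.pi_pos
  have hpi4 := Real.pi_le_four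
  set b : ℝ := κ / 32 with hb
  have hb0 : 0 < b := by positivity
  have hm0 : (0 : ℝ) < T := by linarith
  have hbm : 2 < b * T := by
    rw [div_lt_iff₀ hb0] at hT1
    linarith
  set s : ℝ := 1 - 1 / (b * T) with hs
  have hbm0 : 0 < b * T := by positivity
  have hs0 : 0 ≤ s := by
    rw [hs, sub_nonneg, div_le_one hbm0]
    linarith
  have hs1 : s < 1 := by
    rw [hs]
    have : 0 < 1 / (b * T) := by positivity
    linarith
  set e : ℂ := Complex.exp (((Real.pi / T : ℝ) : ℂ) * Complex.I) with he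
  have hen : ‖e‖ = 1 := Complex.norm_exp_ofReal_mul_I _
  set p : ℂ := (e - s ^ 2 * (starRingEnd ℂ) e) / (1 - s ^ 2) - 1 with hp
  set q : ℂ := s * (e - (starRingEnd ℂ) e) / (1 - s ^ 2) with hq
  have hsq : 1 / (b * T) ≤ 1 - s ^ 2 := by
    have : 1 / (b * T) = 1 - s := by rw [hs]; ring
    rw [this]
    nlinarith
  have hsq0 : 0 < 1 - s ^ 2 := lt_of_lt_of_le (by positivity) hsq
  have hsin : Real.sin (Real.pi / T) ≤ Real.pi / T := Real.sin_le (by positivity)
  have hsin0 : 0 ≤ Real.sin (Real.pi / T) := by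
    apply Real.sin_nonneg_of_nonneg_of_le_pi (by positivity)
    rw [div_le_iff₀ hm0]
    nlinarith
  have hcos : 1 - Real.cos (Real.pi / T) ≤ (Real.pi / T) ^ 2 / 2 := by
    have := Real.one_sub_sq_div_two_le_cos (x := Real.pi / T)
    linarith
  have hcos0 : 0 ≤ 1 - Real.cos (Real.pi / T) := by
    have := Real.cos_le_one (Real.pi / T)
    linarith
  have hinv : 1 / (1 - s ^ 2) ≤ b * T := by
    rw [div_le_iff₀ hsq0]
    have : b * T * (1 / (b * T)) = 1 := by field_simp
    nlinarith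
  have ere : e.re = Real.cos (Real.pi / T) := by rw [he, Complex.exp_ofReal_mul_I_re]
  have eim : e.im = Real.sin (Real.pi / T) := by rw [he, Complex.exp_ofReal_mul_I_im]
  have h4 : e = (Real.cos (Real.pi / T) : ℂ) + (Real.sin (Real.pi / T) : ℂ) * Complex.I := by
    apply Complex.ext
    · simp only [Complex.add_re, Complex.ofReal_re, Complex.mul_re, Complex.I_re,
        Complex.ofReal_im, Complex.I_im, mul_zero, zero_mul, sub_zero, add_zero, ere]
    · simp only [Complex.add_im, Complex.ofReal_re, Complex.mul_im, Complex.I_re,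
        Complex.ofReal_im, Complex.I_im, mul_zero, zero_add, add_zero, mul_one, eim]
  have h3 : (starRingEnd ℂ) e = (Real.cos (Real.pi / T) : ℂ) -
      (Real.sin (Real.pi / T) : ℂ) * Complex.I := by
    rw [h4, map_add, map_mul, Complex.conj_ofReal, Complex.conj_ofReal, Complex.conj_I]
    ring
  have hsinb : Real.sin (Real.pi / T) * (1 / (1 - s ^ 2)) ≤ 4 * b := by
    calc Real.sin (Real.pi / T) * (1 / (1 - s ^ 2)) ≤ (Real.pi / T) * (b * T) :=
          mul_le_mul hsin hinv (by positivity) (by positivity)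
      _ = Real.pi * b := by field_simp
      _ ≤ 4 * b := by nlinarith
  have hsinb0 : 0 ≤ Real.sin (Real.pi / T) * (1 / (1 - s ^ 2)) := by positivity
  have hq1 : ‖q‖ ≤ 8 * b := by
    have e1 : q = ((2 * s * (Real.sin (Real.pi / T) * (1 / (1 - s ^ 2))) : ℝ) : ℂ) * Complex.I := by
      have : e - (starRingEnd ℂ) e = 2 * (Real.sin (Real.pi / T) : ℂ) * Complex.I := by
        rw [h3]
        linear_combination h4
      rw [hq, this]
      push_cast
      ring
    rw [e1, norm_mul, Complex.norm_I, mul_one, Complex.norm_real, Real.norm_of_nonneg (by positivity)]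
    nlinarith
  have hp1 : ‖p‖ ≤ 8 / T + 8 * b := by
    have e1 : p = ((-(1 - Real.cos (Real.pi / T)) : ℝ) : ℂ) +
        (((1 + s ^ 2) * (Real.sin (Real.pi / T) * (1 / (1 - s ^ 2))) : ℝ) : ℂ) * Complex.I := by
      have n5 : (1 : ℂ) - (s : ℂ) ^ 2 ≠ 0 := by
        intro h
        have h2 : (1 : ℝ) - s ^ 2 = 0 := by exact_mod_cast h
        linarith
      rw [hp, h3, h4]
      push_cast
      generalize (Complex.cos (↑Real.pi / ↑T)) = A
      generalize (Complex.sin (↑Real.pi / ↑T)) = B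
      field_simp
      ring
    rw [e1]
    refine (norm_add_le _ _).trans ?_
    rw [norm_mul, Complex.norm_I, mul_one, Complex.norm_real, Complex.norm_real, norm_neg,
      Real.norm_of_nonneg hcos0, Real.norm_of_nonneg (by positivity)]
    have h5 : (Real.pi / T) ^ 2 / 2 ≤ 8 / T := by
      rw [div_pow, div_div, div_le_div_iff₀ (by positivity) hm0]
      have : Real.pi ^ 2 ≤ 16 := by nlinarith
      have h6 : 1 ≤ (T : ℝ) := by linarith
      nlinarith [mul_pos hm0 hm0]
    have h7 : s ^ 2 ≤ 1 := by nlinarith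
    nlinarith
  set g : ℂ → ℂ := fun w => w * (ze p q w / (starRingEnd ℂ) (ze p q w)) with hg
  have hpow : ∀ i : ℕ, ‖(e ^ 2) ^ i‖ = 1 := fun i => by
    rw [norm_pow, norm_pow, hen]; simp
  have hit : ∀ i : ℕ, g^[i] 1 = Mm s ((e ^ 2) ^ i) := by
    intro i
    induction i with
    | zero =>
      simp only [Function.iterate_zero, id, pow_zero]
      unfold Mm
      have := one_sub_ne hs0 hs1 (v := 1) (by simp)
      rw [mul_one] at this ⊢
      rw [div_self this]
    | succ i ih =>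
      rw [Function.iterate_succ_apply', ih, pow_succ' (e ^ 2) i]
      exact step hs0 hs1 hen (hpow i) hp hq
  have h8 : 8 / (T : ℝ) < κ / 4 := by
    rw [div_lt_iff₀ hκ] at hT3
    rw [div_lt_iff₀ hm0]
    linarith
  have h9 : 8 * b = κ / 4 := by rw [hb]; ring
  have hnorm : ∀ v : ℂ, ‖v‖ = 1 → ‖Mm s v‖ = 1 := by
    intro v hv
    unfold Mm
    rw [norm_div, div_eq_one_iff_eq (norm_ne_zero_iff.2 (one_sub_ne hs0 hs1 hv))]
    have h10 : (1 : ℂ) - s * v = v * (starRingEnd ℂ) (v - s) := by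
      rw [map_sub, Complex.conj_ofReal]
      linear_combination (-1 : ℂ) * mul_conj_one hv
    rw [h10, norm_mul, RCLike.norm_conj, hv, one_mul]
  have hre : ∀ v : ℂ, ‖v‖ = 1 → 0 < (ze p q (Mm s v)).re := by
    intro v hv
    apply re_pos_of
    unfold ze
    have h11 : 1 + p + q * (starRingEnd ℂ) (Mm s v) - 1 = p + q * (starRingEnd ℂ) (Mm s v) := by ring
    rw [h11]
    refine (norm_add_le _ _).trans_lt ?_
    rw [norm_mul, RCLike.norm_conj, hnorm v hv, mul_one]
    linarith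
  refine ⟨s, p, q, e, g, hs0, hs1, by rw [hs]; ring, ?_, rfl, fun w => rfl, hit, ?_⟩
  · rw [Prod.norm_def]
    apply max_lt
    · show ‖p‖ < κ
      linarith
    · show ‖q‖ < κ
      linarith
  · intro i
    induction i with
    | zero =>
      rw [Finset.sum_range_zero, pow_zero, ac_one hs1]
      simp
    | succ i ih =>
      rw [Finset.sum_range_succ, ih, hit, arg_ze hs0 hs1 (θ := Real.pi / T) (by positivity) ?_ he
        (hpow i) hp hq (hre _ (hpow i)), ← pow_succ' (e ^ 2) i]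
      · push_cast
        ring
      · rw [div_lt_div_iff_of_pos_left hpi hm0 (by norm_num)]
        exact hT2

/-- The clock: Moebius maps close to the identity for which the orbit of `1` makes `k` turns in `m`
steps and comes back to a fixed neighbourhood of `1` only by hitting `1`. -/
theorem clock (κ : ℝ) (hκ : 0 < κ) (K : ℕ) : ∃ (δ : ℝ) (M : ℕ), 0 < δ ∧ ∀ m : ℕ, M ≤ m →
    ∀ k : ℕ, 1 ≤ k → k ≤ K → ∃ (p q : ℂ) (g : ℂ → ℂ), ‖(p, q)‖ < κ ∧
      (∀ w, g w = w * (ze p q w / (starRingEnd ℂ) (ze p q w))) ∧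
      (∀ i j : ℕ, i * k = m * j → g^[i] 1 = 1 ∧
        ∑ l ∈ Finset.range i, Complex.arg (ze p q (g^[l] 1)) = Real.pi * j) ∧
      ∀ i : ℕ, ¬ m ∣ i * k → δ ≤ ‖g^[i] 1 - 1‖ := by
  have hpi := Real.pi_pos
  set κ' : ℝ := min κ (1 / 4) with hκ'
  have hκ0 : 0 < κ' := lt_min hκ (by norm_num)
  have hκ1 : κ' ≤ 1 / 4 := min_le_right _ _
  obtain ⟨A, hA⟩ := exists_nat_gt (max (2 / (κ' / 32)) (max 2 (32 / κ')))
  set b : ℝ := κ' / 32 with hb
  have hb0 : 0 < b := by positivity
  refine ⟨4 * b / (K + 4 * b), A * K + 1, by positivity, fun m hm k hk1 hkK => ?_⟩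
  have hk0 : (0 : ℝ) < k := by exact_mod_cast hk1
  have hKr : (k : ℝ) ≤ K := by exact_mod_cast hkK
  have hm' : (A : ℝ) * K + 1 ≤ m := by exact_mod_cast hm
  have hm0 : (0 : ℝ) < m := by
    have : (0 : ℝ) ≤ (A : ℝ) * K := by positivity
    linarith
  have hAT : (A : ℝ) < m / k := by
    rw [lt_div_iff₀ hk0]
    have : (A : ℝ) * k ≤ A * K := by gcongr
    linarith
  obtain ⟨s, p, q, e, g, hs0, hs1, hs, hpq, he, hg, hit, hsum⟩ := orbit κ' hκ0 hκ1 (m / k)
    ((le_max_left _ _).trans_lt (hA.trans hAT))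
    (((le_max_left _ _).trans (le_max_right _ _)).trans_lt (hA.trans hAT))
    (((le_max_right _ _).trans (le_max_right _ _)).trans_lt (hA.trans hAT))
  have hen : ‖e‖ = 1 := by rw [he]; exact Complex.norm_exp_ofReal_mul_I _
  have hpow : ∀ i : ℕ, ‖(e ^ 2) ^ i‖ = 1 := fun i => by
    rw [norm_pow, norm_pow, hen]; simp
  have hom : ∀ i : ℕ, (e ^ 2) ^ i =
      Complex.exp (Complex.I * ((2 * Real.pi * (i * k : ℕ) / m : ℝ) : ℂ)) := by
    intro i
    rw [← pow_mul, he, ← Complex.exp_nat_mul]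
    congr 1
    push_cast
    field_simp
  have hper : ∀ a : ℕ, Complex.exp (Complex.I * ((2 * Real.pi * a / m : ℝ) : ℂ)) =
      Complex.exp (Complex.I * ((2 * Real.pi * (a % m : ℕ) / m : ℝ) : ℂ)) := by
    intro a
    have h1 : (a : ℝ) = (a % m : ℕ) + m * (a / m : ℕ) := by
      exact_mod_cast (Nat.mod_add_div a m).symm
    have h2 : Complex.I * ((2 * Real.pi * a / m : ℝ) : ℂ) =
        Complex.I * ((2 * Real.pi * (a % m : ℕ) / m : ℝ) : ℂ) +
          ((a / m : ℕ) : ℂ) * (2 * Real.pi * Complex.I) := by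
      rw [h1]
      have : (m : ℂ) ≠ 0 := by exact_mod_cast hm0.ne'
      push_cast
      field_simp
    rw [h2, Complex.exp_add]
    have h3 : Complex.exp (((a / m : ℕ) : ℂ) * (2 * Real.pi * Complex.I)) = 1 :=
      Complex.exp_nat_mul_two_pi_mul_I _
    rw [h3, mul_one]
  refine ⟨p, q, g, hpq.trans_le (min_le_left _ _), hg, ?_, ?_⟩
  · intro i j hij
    have h1 : (e ^ 2) ^ i = 1 := by
      rw [hom, hper, hij, Nat.mul_mod_right]
      simp
    refine ⟨?_, ?_⟩
    · rw [hit, h1]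
      unfold Mm
      have := one_sub_ne hs0 hs1 (v := 1) (by simp)
      rw [mul_one] at this ⊢
      rw [div_self this]
    · rw [hsum, h1, ac_one hs1]
      have h2 : (i : ℝ) * k = m * j := by exact_mod_cast hij
      have h3 : (i : ℝ) * (Real.pi / (m / k)) = Real.pi * (i * k) / m := by
        field_simp
      rw [h3, h2]
      field_simp
      ring
  · intro i hi
    rw [hit]
    have h10 : 4 / (m : ℝ) ≤ ‖(e ^ 2) ^ i - 1‖ := by
      rw [hom, hper, Complex.norm_exp_I_mul_ofReal_sub_one, Real.norm_eq_abs, abs_mul]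
      have e1 : 2 * Real.pi * ((i * k % m : ℕ) : ℝ) / m / 2 =
        Real.pi * ((i * k % m : ℕ) : ℝ) / m := by ring
      rw [e1]
      have hmn : 0 < m := by exact_mod_cast hm0
      have h11 := sin_lower (m := m) (i := i * k % m) (Nat.pos_of_ne_zero fun h =>
        hi (Nat.dvd_of_mod_eq_zero h)) (Nat.mod_lt _ hmn)
      have h12 := le_abs_self (Real.sin (Real.pi * ((i * k % m : ℕ) : ℝ) / m))
      have : 4 / (m : ℝ) = 2 * (2 / m) := by ring
      rw [this, abs_of_pos (by norm_num : (0 : ℝ) < 2)]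
      linarith
    have h13 := norm_Mm_sub hs0 hs1 (hpow i) (by positivity) h10
    refine le_trans ?_ h13
    rw [hs]
    have h14 : 1 / (κ' / 32 * (m / k)) = k / (b * m) := by
      rw [hb]
      field_simp
    rw [h14]
    have h15 : 4 / (m : ℝ) / (k / (b * m) + 4 / m) = 4 * b / (k + 4 * b) := by
      field_simp
    rw [h15]
    gcongr

end Pool.Agent.Y283.CR
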