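import Pool.Agent.Y283.CR.Fam

/-! # The family of fibrewise Moebius perturbations, for functions which are not unimodular -/

set_option autoImplicit false

open scoped Manifold ContDiff Topology ComplexConjugate
open Filter Set Metric

universe u

namespace Pool.Agent.Y283.CR

open Pool.Agent.H718R2.G Pool.Agent.W564.SC Pool.Agent.W320.SC

/-- the parameters near `(1,0)` -/
def Nb (C : ℝ) (α β : ℂ) : Prop := ‖α - 1‖ < 1 / 4 ∧ ‖β‖ * C < 1 / 4

theorem Nb.re {C : ℝ} {α β : ℂ} (h : Nb C α β) {w : ℂ} (hw : ‖w‖ ≤ C) :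
    0 < (α + β * conj w).re := by
  have h1 : ‖(α - 1) + β * conj w‖ < 1 / 2 := by
    calc ‖(α - 1) + β * conj w‖ ≤ ‖α - 1‖ + ‖β * conj w‖ := norm_add_le _ _
      _ = ‖α - 1‖ + ‖β‖ * ‖w‖ := by rw [norm_mul, Complex.norm_conj]
      _ ≤ ‖α - 1‖ + ‖β‖ * C := by gcongr
      _ < 1 / 2 := by linarith [h.1, h.2]
  have h2 := (abs_le.1 ((Complex.abs_re_le_norm ((α - 1) + β * conj w)))).1
  have h3 : (α + β * conj w).re = ((α - 1) + β * conj w).re + 1 := by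
    simp only [Complex.add_re, Complex.sub_re, Complex.one_re]
    ring
  rw [h3]
  linarith

theorem Nb.slit {C : ℝ} {α β : ℂ} (h : Nb C α β) {w : ℂ} (hw : ‖w‖ ≤ C) :
    α + β * conj w ∈ Complex.slitPlane := Or.inl (h.re hw)

theorem Nb.flip {C : ℝ} {α β : ℂ} (h : Nb C α β) : Nb C (conj α) (-β) := by
  refine ⟨?_, by rw [norm_neg]; exact h.2⟩
  have : conj α - 1 = conj (α - 1) := by rw [map_sub, map_one]
  rw [this, Complex.norm_conj]
  exact h.1

theorem Nb.lt {C : ℝ} {α β : ℂ} (h : Nb C α β) {w : ℂ} (hw : ‖w‖ ≤ C) : ‖β‖ * ‖w‖ < ‖α‖ := by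
  have h1 : ‖(1 : ℂ)‖ ≤ ‖α‖ + ‖α - 1‖ := by
    have : (1 : ℂ) = α - (α - 1) := by ring
    calc ‖(1 : ℂ)‖ = ‖α - (α - 1)‖ := by rw [← this]
      _ ≤ _ := norm_sub_le _ _
  rw [norm_one] at h1
  have h2 : ‖β‖ * ‖w‖ ≤ ‖β‖ * C := by gcongr
  linarith [h.1, h.2]

theorem opp2 {C : ℝ} {α β : ℂ} (h : Nb C α β) {w : ℂ} (hw : ‖w‖ ≤ C) :
    ang (conj α) (-β) (mv α β w) + ang α β w = 0 := by
  set ζ : ℂ := α + β * conj w with hζ
  set E : ℂ := Complex.exp (2 * Real.pi * Complex.I * ((Complex.arg ζ / Real.pi : ℝ) : ℂ)) with hE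
  have hre : 0 < ζ.re := h.re hw
  have hζ0 : ζ ≠ 0 := by
    intro h0
    rw [h0] at hre
    simp at hre
  have e1 : E * conj ζ = ζ := rot ζ
  have e2 : conj E * ζ = conj ζ := by
    have := congrArg conj e1
    rwa [map_mul, Complex.conj_conj] at this
  have e3 : mv α β w = E * w := rfl
  have hww : w * conj w = ((‖w‖ ^ 2 : ℝ) : ℂ) := by
    rw [Complex.mul_conj, Complex.normSq_eq_norm_sq]
  have hc : 0 < ‖α‖ ^ 2 - (‖β‖ * ‖w‖) ^ 2 := by
    have h1 := h.lt hw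
    have h2 : 0 ≤ ‖β‖ * ‖w‖ := by positivity
    nlinarith
  have e4 : ζ * (conj α + -β * conj (mv α β w)) = ((‖α‖ ^ 2 - (‖β‖ * ‖w‖) ^ 2 : ℝ) : ℂ) := by
    have h1 : ζ * (conj α + -β * conj (mv α β w)) = ζ * conj α - β * conj w * (conj E * ζ) := by
      rw [e3, map_mul]
      ring
    rw [h1, e2, hζ, map_add, map_mul, Complex.conj_conj]
    have h2 : α * conj α = ((‖α‖ ^ 2 : ℝ) : ℂ) := by
      rw [Complex.mul_conj, Complex.normSq_eq_norm_sq]
    have h3 : β * conj β = ((‖β‖ ^ 2 : ℝ) : ℂ) := by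
      rw [Complex.mul_conj, Complex.normSq_eq_norm_sq]
    have h4 : ((‖α‖ ^ 2 - (‖β‖ * ‖w‖) ^ 2 : ℝ) : ℂ) =
        ((‖α‖ ^ 2 : ℝ) : ℂ) - ((‖β‖ ^ 2 : ℝ) : ℂ) * ((‖w‖ ^ 2 : ℝ) : ℂ) := by
      push_cast
      ring
    rw [h4, ← h2, ← h3, ← hww]
    ring
  have e5 : conj α + -β * conj (mv α β w) = ((‖α‖ ^ 2 - (‖β‖ * ‖w‖) ^ 2 : ℝ) : ℂ) * ζ⁻¹ := by
    rw [← e4]
    field_simp
  have hpi : Complex.arg ζ ≠ Real.pi := by
    intro h0
    have := Complex.arg_eq_pi_iff.1 h0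
    linarith [this.1]
  unfold ang
  rw [e5, Complex.arg_real_mul _ hc, Complex.arg_inv, if_neg hpi, ← hζ]
  ring

theorem norm_mv2 {α β w : ℂ} : ‖mv α β w‖ = ‖w‖ := by
  have : 2 * (Real.pi : ℂ) * Complex.I * (ang α β w : ℂ) =
      ((2 * Real.pi * ang α β w : ℝ) : ℂ) * Complex.I := by
    push_cast
    ring
  rw [mv, norm_mul, this, Complex.norm_exp_ofReal_mul_I, one_mul]

theorem Gm_inv2 {n : ℕ} {N : Type u} [TopologicalSpace N] [ChartedSpace (V n) N]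
    {R : V 1 → N → N} {a : N → ℂ} (hR : Act n N R) {C : ℝ} (ha1 : ∀ y, ‖a y‖ ≤ C)
    (ha2 : ∀ t y, a (R t y) = Complex.exp (2 * Real.pi * Complex.I * (t 0 : ℝ)) * a y)
    {α β : ℂ} (h : Nb C α β) (y : N) : Gm R a ((conj α, -β), Gm R a ((α, β), y)) = y := by
  have h1 : a (Gm R a ((α, β), y)) = mv α β (a y) := by
    rw [Gm, ha2]
    simp [gv, mv]
  have h2 : Gm R a ((conj α, -β), Gm R a ((α, β), y)) =
      R (gv ((conj α, -β), mv α β (a y))) (R (gv ((α, β), a y)) y) := by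
    rw [← h1]
    rfl
  rw [h2, ← hR.add]
  have h3 : gv ((conj α, -β), mv α β (a y)) + gv ((α, β), a y) = 0 := by
    have := opp2 h (ha1 y)
    rw [gv, gv]
    ext i
    have hi : i = 0 := Subsingleton.elim _ _
    rw [hi]
    simpa using this
  rw [h3, hR.zero]

theorem cf2 (n : ℕ) (N : Type u) [TopologicalSpace N] [ChartedSpace (V n) N]
    [IsManifold (𝓡 n) ∞ N] (r : ℕ∞) (R : V 1 → N → N) (hR : Act n N R)
    (a : N → ℂ) (ha : ContMDiff (𝓡 n) 𝓘(ℝ, ℂ) ∞ a) (C : ℝ) (hC : 0 ≤ C) (ha1 : ∀ y, ‖a y‖ ≤ C)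
    (ha2 : ∀ t y, a (R t y) = Complex.exp (2 * Real.pi * Complex.I * (t 0 : ℝ)) * a y)
    (F : DiffM n N r) (hF2 : ∀ y, a (F y) = a y) :
    ∃ (H : ℂ × ℂ → DiffM n N r) (κ : ℝ), 0 < κ ∧ H 0 = F ∧ IsFam n N r H ∧
      ∀ p : ℂ × ℂ, ‖p‖ < κ → ∀ y, H p y =
        R (EuclideanSpace.single 0 (Complex.arg (1 + p.1 + p.2 * (starRingEnd ℂ) (a y)) / Real.pi))
          (F y) := by
  have hr : ((r : WithTop ℕ∞)) ≤ ∞ := by exact_mod_cast le_top
  obtain ⟨κ, hκ0, hκ1, hκ2⟩ : ∃ κ : ℝ, 0 < κ ∧ κ ≤ 1 / 4 ∧ κ * C < 1 / 4 := by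
    refine ⟨1 / (4 * (C + 1)), by positivity, ?_, ?_⟩
    · apply one_div_le_one_div_of_le (by norm_num)
      linarith
    · rw [div_mul_eq_mul_div, one_mul, div_lt_div_iff₀ (by positivity) (by norm_num)]
      linarith
  -- the diffeomorphisms
  have key : ∀ p : ℂ × ℂ, ∃ G : DiffM n N r, (‖p‖ < κ →
      ∀ y, G y = Gm R a ((1 + p.1, p.2), F y)) ∧ (¬ ‖p‖ < κ → G = F) := by
    intro p
    by_cases hp : ‖p‖ < κ
    · have hN : Nb C (1 + p.1) p.2 := by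
        refine ⟨?_, ?_⟩
        · rw [add_sub_cancel_left]
          exact (lt_of_le_of_lt (norm_fst_le p) hp).trans_le hκ1
        · have h1 : ‖p.2‖ ≤ κ := (norm_snd_le p).trans hp.le
          have h2 : ‖p.2‖ * C ≤ κ * C := by gcongr
          linarith
      have hN' := hN.flip
      have s1 : ContMDiff (𝓡 n) (𝓡 n) ∞ (fun y => Gm R a ((1 + p.1, p.2), y)) := by
        intro y
        have := (Gm_smooth' hR ha (q := ((1 + p.1, p.2), y)) (hN.slit (ha1 y))).comp y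
          ((contMDiffAt_const (c := ((1 + p.1, p.2) : ℂ × ℂ))).prodMk contMDiffAt_id)
        exact this
      have s2 : ContMDiff (𝓡 n) (𝓡 n) ∞ (fun y => Gm R a ((conj (1 + p.1), -p.2), y)) := by
        intro y
        have := (Gm_smooth' hR ha (q := ((conj (1 + p.1), -p.2), y)) (hN'.slit (ha1 y))).comp y
          ((contMDiffAt_const (c := ((conj (1 + p.1), -p.2) : ℂ × ℂ))).prodMk contMDiffAt_id)
        exact this
      have i1 := fun y => Gm_inv2 hR ha1 ha2 hN y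
      have i2 : ∀ y, Gm R a ((1 + p.1, p.2), Gm R a ((conj (1 + p.1), -p.2), y)) = y := by
        intro y
        have := Gm_inv2 hR ha1 ha2 hN' y
        rwa [Complex.conj_conj, neg_neg] at this
      let G1 : DiffM n N r :=
        { toFun := fun y => Gm R a ((1 + p.1, p.2), y)
          invFun := fun y => Gm R a ((conj (1 + p.1), -p.2), y)
          left_inv := i1
          right_inv := i2
          contMDiff_toFun := s1.of_le hr
          contMDiff_invFun := s2.of_le hr }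
      exact ⟨F.trans G1, fun _ y => rfl, fun h => absurd hp h⟩
    · exact ⟨F, fun h => absurd h hp, fun _ => rfl⟩
  choose H hH1 hH2 using key
  refine ⟨H, κ, hκ0, ?_, ?_, ?_⟩
  · ext y
    rw [hH1 0 (by rw [norm_zero]; exact hκ0)]
    have : gv (((1 : ℂ) + (0 : ℂ × ℂ).1, (0 : ℂ × ℂ).2), a (F y)) = 0 := by
      rw [gv, ang]
      simp
    rw [Gm, this, hR.zero]
  · intro y
    have hq : Tendsto (fun q : (ℂ × ℂ) × N => ‖q.1‖) (𝓝 ((0 : ℂ × ℂ), y)) (𝓝 ‖(0 : ℂ × ℂ)‖) :=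
      (continuous_fst.norm.tendsto _)
    have hev : ∀ᶠ q : (ℂ × ℂ) × N in 𝓝 ((0 : ℂ × ℂ), y), ‖q.1‖ < κ :=
      hq.eventually (gt_mem_nhds (by rw [norm_zero]; exact hκ0))
    have e1 : (fun q : (ℂ × ℂ) × N => H q.1 q.2) =ᶠ[𝓝 ((0 : ℂ × ℂ), y)]
        (fun q => Gm R a ((1 + q.1.1, q.1.2), F q.2)) := by
      filter_upwards [hev] with q hq
      exact hH1 q.1 hq q.2
    refine ContMDiffAt.congr_of_eventuallyEq ?_ e1
    have s1 : ContMDiffAt (𝓘(ℝ, ℂ × ℂ).prod (𝓡 n)) (𝓘(ℝ, ℂ × ℂ).prod (𝓡 n)) r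
        (fun q : (ℂ × ℂ) × N => (((1 + q.1.1, q.1.2) : ℂ × ℂ), F q.2)) ((0 : ℂ × ℂ), y) := by
      refine ContMDiffAt.prodMk ?_ ?_
      · have hc : ContDiff ℝ r (fun p : ℂ × ℂ => ((1 + p.1, p.2) : ℂ × ℂ)) :=
          (contDiff_const.add contDiff_fst).prodMk contDiff_snd
        exact hc.contDiffAt.comp_contMDiffAt contMDiffAt_fst
      · exact (F.contMDiff.contMDiffAt).comp _ contMDiffAt_snd
    have s2 : ContMDiffAt (𝓘(ℝ, ℂ × ℂ).prod (𝓡 n)) (𝓡 n) r (Gm R a)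
        (((1 + (0 : ℂ × ℂ).1, (0 : ℂ × ℂ).2) : ℂ × ℂ), F y) := by
      refine (Gm_smooth' hR ha ?_).of_le hr
      have hN : Nb C (1 + (0 : ℂ × ℂ).1) (0 : ℂ × ℂ).2 := by
        constructor <;> simp
      exact hN.slit (ha1 _)
    exact ContMDiffAt.comp ((0 : ℂ × ℂ), y) s2 s1
  · intro p hp y
    rw [hH1 p hp y, Gm, gv, ang, hF2]

/-- A smooth action of the circle `ℝ/ℤ`, not necessarily free. -/
structure CircleAct (n : ℕ) (N : Type*) [TopologicalSpace N] [ChartedSpace (V n) N]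
    (R : ℝ → N → N) : Prop where
  smooth : ContMDiff (𝓘(ℝ, ℝ).prod (𝓡 n)) (𝓡 n) ∞ (fun q : ℝ × N => R q.1 q.2)
  zero : ∀ y, R 0 y = y
  add : ∀ s t y, R (s + t) y = R s (R t y)
  one : ∀ y, R 1 y = y

theorem CircleAct.int {n : ℕ} {N : Type*} [TopologicalSpace N] [ChartedSpace (V n) N]
    {R : ℝ → N → N} (hR : CircleAct n N R) (l : ℤ) (y : N) : R l y = y := by
  have h1 : ∀ (m : ℕ) (y : N), R m y = y := by
    intro m
    induction m with
    | zero => intro y; simpa using hR.zero y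
    | succ m ih =>
      intro y
      rw [Nat.cast_succ, hR.add, hR.one, ih]
  rcases Int.eq_nat_or_neg l with ⟨m, rfl | rfl⟩
  · exact_mod_cast h1 m y
  · have h2 := hR.add (-(m : ℝ)) m y
    rw [neg_add_cancel, hR.zero, h1] at h2
    push_cast
    exact h2.symm

/-- The action, `c` times faster. -/
theorem CircleAct.act {n : ℕ} {N : Type u} [TopologicalSpace N] [ChartedSpace (V n) N]
    {R : ℝ → N → N} (hR : CircleAct n N R) (c : ℝ) : Act n N (fun t => R (c * t 0)) where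
  smooth := by
    have h1 : ContMDiff ((𝓡 1).prod (𝓡 n)) (𝓘(ℝ, ℝ).prod (𝓡 n)) ∞
        (fun q : V 1 × N => (c * q.1 0, q.2)) := by
      refine ContMDiff.prodMk ?_ contMDiff_snd
      have h2 : ContDiff ℝ ∞ (fun t : V 1 => c * t 0) := by fun_prop
      exact h2.contMDiff.comp contMDiff_fst
    exact hR.smooth.comp h1
  zero := fun y => by
    show R (c * (0 : V 1) 0) y = y
    have : c * (0 : V 1) 0 = 0 := by simp
    rw [this, hR.zero]
  add := fun s t y => by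
    show R (c * (s + t) 0) y = R (c * s 0) (R (c * t 0) y)
    rw [← hR.add]
    congr 1
    show c * (s 0 + t 0) = _
    ring

end Pool.Agent.Y283.CR
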