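import Pool.Agent.Y283.CR.Circ
import Pool.Agent.TH382.HS.Limit

/-! # Nonwandering circles can be closed -/

set_option autoImplicit false

open scoped Manifold ContDiff Topology
open Filter Set Metric

universe u

namespace Pool.Agent.Y283.CR

open Pool.Agent.H718R2.G Pool.Agent.W564.SC Pool.Agent.W54.SC

theorem main2 (n : ℕ) (N : Type u) [TopologicalSpace N] [T2Space N] [CompactSpace N]
    [ChartedSpace (V n) N] [IsManifold (𝓡 n) ∞ N] (r : ℕ∞) (hr : 1 ≤ r)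
    (R : ℝ → N → N) (hR : CircleAct n N R) (a : N → ℂ) (ha : ContMDiff (𝓡 n) 𝓘(ℝ, ℂ) ∞ a)
    (haR : ∀ t y, a (R t y) = ee t * a y)
    (F : DiffM n N r) (hFR : ∀ t y, F (R t y) = R t (F y)) (α : ℝ)
    (haF : ∀ y, a (F y) = ee α * a y) (z : N) (ha1 : ‖a z‖ = 1)
    (hNW : ∀ W ∈ 𝓝 z, ∃ m : ℕ, 1 ≤ m ∧ ∃ y ∈ W, ∃ t : ℝ, R t (F^[m] y) ∈ W) :
    Closable n N r F z := by
  by_cases hper : ∃ b : ℕ, 1 ≤ b ∧ ∃ β : ℝ, F^[b] z = R β z
  · obtain ⟨b, hb, β, hβ⟩ := hper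
    exact circ_bp hR r hr F hFR z b β hb hβ
  have hz : ∀ b : ℕ, 1 ≤ b → ∀ β : ℝ, F^[b] z ≠ R β z := by
    intro b hb β h
    exact hper ⟨b, hb, β, h⟩
  intro U hU hFU
  obtain ⟨χ, hχ⟩ := Pool.Agent.W699.SC.gc n N z
  have hac : Continuous a := ha.continuous
  obtain ⟨C, hC⟩ : ∃ C : ℝ, ∀ y, ‖a y‖ ≤ C := by
    obtain ⟨C, hC⟩ := (isCompact_range hac).isBounded.exists_norm_le
    exact ⟨C, fun y => hC _ (mem_range_self y)⟩
  have hC0 : 0 ≤ C := (norm_nonneg _).trans (hC z)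
  -- the rotations
  obtain ⟨H0, κ0, hκ0, hH0, hin⟩ := circ_near hR r hr F z χ hχ U hU hFU
  obtain ⟨S, K, hS, hSm⟩ := arith α κ0 hκ0
  -- the families
  have hfamilies : ∀ x : ℤ × ℕ, ∃ (H : ℂ × ℂ → DiffM n N r) (k : ℕ) (κ : ℝ), x ∈ S → (0 < κ ∧
      (∀ p : ℂ × ℂ, ‖p‖ < κ → ∀ y, H p y =
        R (Complex.arg (1 + p.1 + p.2 * (starRingEnd ℂ) (a y ^ x.2)) / Real.pi / x.2 +
          ((x.1 : ℝ) / x.2 - α)) (F y)) ∧
      ∀ (s : ℂ × ℂ) (z' : N) (ρ : ℝ) (m : ℕ), ‖s‖ < κ → z' ∈ χ.source → ‖χ z'‖ < κ → 0 < ρ →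
        ρ < κ → 1 ≤ m →
        (H s)^[m] z' ∈ χ.source → ‖χ ((H s)^[m] z') - χ z'‖ < κ * ρ ^ k →
        (∀ i, 0 < i → i < m → (H s)^[i] z' ∈ χ.source →
          2 * ρ ≤ ‖χ ((H s)^[i] z') - χ z'‖) →
        ∃ G ∈ U, IsPer G z) := by
    intro x
    by_cases hx : x ∈ S
    · obtain ⟨hx1, hx2⟩ := hS x hx
      have hbr : (0 : ℝ) < x.2 := by exact_mod_cast hx1
      obtain ⟨s, hs⟩ : ∃ s : ℝ, s = (x.1 : ℝ) / x.2 - α := ⟨_, rfl⟩
      have hsn : |s| < κ0 := by rw [hs]; exact hx2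
      have hAct := hR.act (1 / (x.2 : ℝ))
      have e1 : ∀ y, a (H0 s y) = ee ((x.1 : ℝ) / x.2) * a y := by
        intro y
        rw [hH0, haF, haR, hs, ← mul_assoc, ← ee_add]
        congr 2
        ring
      have h2 : ∀ y, a (H0 s y) ^ x.2 = a y ^ x.2 := by
        intro y
        rw [e1, mul_pow, ee_pow]
        have : (x.2 : ℝ) * ((x.1 : ℝ) / x.2) = (x.1 : ℤ) := by field_simp
        rw [this, ee_int, one_mul]
      obtain ⟨H, κ1, hκ1, hH0', hfam, hH⟩ := cf2 n N r (fun t : V 1 => R ((1 / (x.2 : ℝ)) * t 0))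
        hAct (fun y => a y ^ x.2) (by
          have := (contDiff_id.pow x.2 : ContDiff ℝ ∞ (fun w : ℂ => w ^ x.2))
          exact this.contMDiff.comp ha) (C ^ x.2) (by positivity)
        (fun y => by
          rw [norm_pow]
          exact pow_le_pow_left₀ (norm_nonneg _) (hC y) _)
        (fun t y => by
          show a (R ((1 / (x.2 : ℝ)) * t 0) y) ^ x.2 = ee (t 0) * a y ^ x.2
          rw [haR, mul_pow, ee_pow]
          congr 2
          field_simp)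
        (H0 s) h2
      obtain ⟨k, hk, κ2, hκ2, hCL⟩ := t_CL n N r hr (ℂ × ℂ) H hfam χ z hχ U hU
        (by rw [hH0']; exact hin s hsn)
      refine ⟨H, k, min κ1 κ2, fun _ => ⟨lt_min hκ1 hκ2, ?_, ?_⟩⟩
      · intro p hp y
        have h4 := hH p (hp.trans_le (min_le_left _ _)) y
        rw [h4]
        show R ((1 / (x.2 : ℝ)) * ((EuclideanSpace.single (0 : Fin 1)
            (Complex.arg (1 + p.1 + p.2 * (starRingEnd ℂ) (a y ^ x.2)) / Real.pi) : V 1) 0 : ℝ))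
            (H0 s y) = _
        rw [single_zero, hH0, hFR, ← hR.add, hs]
        congr 1
        ring
      · intro s' z' ρ m h5 h6 h7 h8 h9 h10 h11 h12 h13
        exact hCL s' z' ρ m (h5.trans_le (min_le_right _ _)) h6 (h7.trans_le (min_le_right _ _)) h8
          (h9.trans_le (min_le_right _ _)) h10 h11
          (h12.trans_le (by
            have : (0 : ℝ) ≤ ρ ^ k := by positivity
            exact mul_le_mul_of_nonneg_right (min_le_right _ _) this)) h13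
    · exact ⟨fun _ => F, 0, 1, fun h => absurd h hx⟩
  choose H k κf hHf using hfamilies
  obtain ⟨κ, hκ, hκf⟩ := fin_min S κf (fun x hx => (hHf x hx).1)
  obtain ⟨κ3, hκ3, hκ3f⟩ := fin_min S (fun x => κ * (1 / 2) ^ x.2) (fun x _ => by positivity)
  obtain ⟨κ', hκ'0, hκ'1, hκ'2, hκ'3⟩ : ∃ κ' : ℝ, 0 < κ' ∧ κ' ≤ κ ∧ κ' ≤ 1 / 4 ∧ κ' ≤ κ3 :=
    ⟨min (min κ (1 / 4)) κ3, lt_min (lt_min hκ (by norm_num)) hκ3,
      (min_le_left _ _).trans (min_le_left _ _), (min_le_left _ _).trans (min_le_right _ _),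
      min_le_right _ _⟩
  obtain ⟨δ, M, hδ, hclock⟩ := clock κ' hκ'0 K
  -- uniform separation
  obtain ⟨η0, hη0, hη1⟩ := fin_min S (fun x => min δ 1 / x.2 / 4) (fun x hx => by
    have h1 := (hS x hx).1
    have : (0 : ℝ) < x.2 := by exact_mod_cast h1
    have : 0 < min δ 1 := lt_min hδ one_pos
    positivity)
  obtain ⟨η, hη, hηa, hηb⟩ : ∃ η : ℝ, 0 < η ∧ η ≤ η0 ∧ η ≤ 1 / 2 :=
    ⟨min η0 (1 / 2), lt_min hη0 (by norm_num), min_le_left _ _, min_le_right _ _⟩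
  -- the radius
  obtain ⟨ρ, hρ0, hρκ, hρa⟩ : ∃ ρ : ℝ, 0 < ρ ∧ ρ < κ ∧
      ∀ y ∈ χ.source, ‖χ y‖ < 3 * ρ → ‖a y - a z‖ < η := by
    have hc : ContinuousAt (fun x => a (χ.symm x)) (0 : V n) := by
      have h5 : ContinuousAt χ.symm (0 : V n) := by
        apply χ.continuousAt_symm
        exact hχ.ball (mem_closedBall_self (by norm_num))
      exact ContinuousAt.comp (g := a) (f := χ.symm) hac.continuousAt h5
    have hz0 : χ.symm (0 : V n) = z := by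
      rw [← hχ.zero]
      exact χ.left_inv hχ.src
    rw [Metric.continuousAt_iff] at hc
    obtain ⟨ε, hε, hε2⟩ := hc η hη
    refine ⟨min (ε / 3) (κ / 2), lt_min (by linarith) (by linarith),
      (min_le_right _ _).trans_lt (by linarith), ?_⟩
    intro y hy hy2
    have h5 : ‖χ y‖ < ε := by
      have : min (ε / 3) (κ / 2) ≤ ε / 3 := min_le_left _ _
      linarith
    have h6 := hε2 (x := χ y) (by rw [dist_zero_right]; exact h5)
    rw [χ.left_inv hy, hz0, dist_eq_norm] at h6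
    exact h6
  obtain ⟨ε', hε'0, hε'1⟩ := fin_min S (fun x => κ * ρ ^ (k x) / 2) (fun x _ => by positivity)
  obtain ⟨ε, hε0, hε1, hε2, hε3⟩ : ∃ ε : ℝ, 0 < ε ∧ ε ≤ ρ ∧ ε ≤ κ ∧ ε ≤ ε' := by
    refine ⟨min (min ρ κ) ε', lt_min (lt_min hρ0 hκ) hε'0,
      (min_le_left _ _).trans (min_le_left _ _), (min_le_left _ _).trans (min_le_right _ _),
      min_le_right _ _⟩
  have hW : {y : N | y ∈ χ.source ∧ ‖χ y‖ < ε} ∈ 𝓝 z := by
    have h5 : χ.source ∈ 𝓝 z := χ.open_source.mem_nhds hχ.src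
    have h6 : ContinuousAt (fun y => ‖χ y‖) z := (χ.continuousAt hχ.src).norm
    have h7 : ∀ᶠ y in 𝓝 z, ‖χ y‖ < ε := by
      have h8 : ‖χ z‖ < ε := by rw [hχ.zero, norm_zero]; exact hε0
      exact h6.eventually_lt_const h8
    filter_upwards [h5, h7] with y hy1 hy2
    exact ⟨hy1, hy2⟩
  obtain ⟨m, hmM, hm1, y, ⟨hyχ, hyε⟩, t, ⟨hmyχ, hmyε⟩, hamy⟩ := circ_returns hR F F.continuous
    a hac haR hFR (fun y => by rw [haF, norm_mul, ee_norm, one_mul]) z ha1 χ hχ hz hNW _ hW M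
  have hay : ‖a y - a z‖ < η := hρa y hyχ (by linarith)
  have hay2 : 1 / 2 ≤ ‖a y‖ := by
    have h1 := norm_sub_norm_le (a z) (a y)
    rw [norm_sub_rev, ha1] at h1
    linarith
  have hay0 : a y ≠ 0 := by
    intro h0
    rw [h0, norm_zero] at hay2
    linarith
  obtain ⟨x, hxS, kk, hkk1, hkkK, hdiv, hnd⟩ := hSm m hm1
  obtain ⟨hκx, hHx, hCL⟩ := hHf x hxS
  have hx1 := (hS x hxS).1
  have hbr : (0 : ℝ) < x.2 := by exact_mod_cast hx1
  obtain ⟨p, q, g, hpq, hg, hgj, hgi⟩ := hclock m hmM kk hkk1 hkkK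
  have hp' : ‖p‖ < κ' := (norm_fst_le (p, q)).trans_lt hpq
  have hq' : ‖q‖ < κ' := (norm_snd_le (p, q)).trans_lt hpq
  have hp : ‖p‖ < 1 / 4 := hp'.trans_le hκ'2
  have hq : ‖q‖ < 1 / 4 := hq'.trans_le hκ'2
  have hAn : ‖a y ^ x.2‖ ≠ 0 := by
    rw [norm_pow]
    exact pow_ne_zero _ (norm_ne_zero_iff.2 hay0)
  have hAc : a y ^ x.2 * (starRingEnd ℂ) (a y ^ x.2) = ((‖a y ^ x.2‖ ^ 2 : ℝ) : ℂ) := by
    rw [Complex.mul_conj, Complex.normSq_eq_norm_sq]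
  obtain ⟨sp, hsp⟩ : ∃ sp : ℂ × ℂ, sp = (p, q * (a y ^ x.2 / ((‖a y ^ x.2‖ ^ 2 : ℝ) : ℂ))) :=
    ⟨_, rfl⟩
  have hs : ‖sp‖ < κ := by
    rw [hsp, Prod.norm_def]
    apply max_lt
    · exact hp'.trans_le hκ'1
    · show ‖q * (a y ^ x.2 / ((‖a y ^ x.2‖ ^ 2 : ℝ) : ℂ))‖ < κ
      rw [norm_mul, norm_div, Complex.norm_real, Real.norm_of_nonneg (by positivity)]
      have h1 : ‖a y ^ x.2‖ / ‖a y ^ x.2‖ ^ 2 = ‖a y ^ x.2‖⁻¹ := by field_simp
      rw [h1]
      have h2 : (1 / 2 : ℝ) ^ x.2 ≤ ‖a y ^ x.2‖ := by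
        rw [norm_pow]
        exact pow_le_pow_left₀ (by norm_num) hay2 _
      have h3 : ‖a y ^ x.2‖⁻¹ ≤ ((1 / 2 : ℝ) ^ x.2)⁻¹ := inv_anti₀ (by positivity) h2
      have h4 : ‖q‖ * ‖a y ^ x.2‖⁻¹ ≤ ‖q‖ * ((1 / 2 : ℝ) ^ x.2)⁻¹ := by gcongr
      have h5 : ‖q‖ * ((1 / 2 : ℝ) ^ x.2)⁻¹ < κ3 * ((1 / 2 : ℝ) ^ x.2)⁻¹ := by
        apply mul_lt_mul_of_pos_right (hq'.trans_le hκ'3)
        positivity
      have h6 : κ3 * ((1 / 2 : ℝ) ^ x.2)⁻¹ ≤ κ * (1 / 2) ^ x.2 * ((1 / 2 : ℝ) ^ x.2)⁻¹ :=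
        mul_le_mul_of_nonneg_right (hκ3f x hxS) (by positivity)
      have h7 : κ * (1 / 2) ^ x.2 * ((1 / 2 : ℝ) ^ x.2)⁻¹ = κ := by field_simp
      linarith
  have hsκ : ‖sp‖ < κf x := hs.trans_le (hκf x hxS)
  have hpi : Real.pi ≠ 0 := Real.pi_ne_zero
  obtain ⟨θ, hθ⟩ : ∃ θ : ℕ → ℝ, ∀ i, θ i = ((i * x.1 +
        (∑ l ∈ Finset.range i, Complex.arg (ze p q (g^[l] 1))) / Real.pi) / x.2) :=
    ⟨_, fun i => rfl⟩
  -- the orbit
  have horb : ∀ i : ℕ, (∃ T : ℝ, (H x sp)^[i] y = R T (F^[i] y)) ∧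
      ee (θ i) ^ x.2 = g^[i] 1 ∧ a ((H x sp)^[i] y) = a y * ee (θ i) := by
    intro i
    induction i with
    | zero =>
      have h0 : θ 0 = 0 := by rw [hθ]; simp
      refine ⟨⟨0, ?_⟩, ?_, ?_⟩
      · show y = R 0 y
        rw [hR.zero]
      · rw [h0, ee_zero, one_pow]
        rfl
      · rw [h0, ee_zero, mul_one]
        rfl
    | succ i ih =>
      obtain ⟨⟨T, hT⟩, hai, hbi⟩ := ih
      obtain ⟨y', hy'⟩ : ∃ y', y' = (H x sp)^[i] y := ⟨_, rfl⟩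
      obtain ⟨w, hw⟩ : ∃ w, w = g^[i] 1 := ⟨_, rfl⟩
      rw [Function.iterate_succ_apply', Function.iterate_succ_apply', Function.iterate_succ_apply']
      rw [← hy'] at hT hbi ⊢
      rw [← hw] at hai ⊢
      have hwn : ‖w‖ = 1 := by
        rw [← hai, norm_pow, ee_norm, one_pow]
      have hζ : 1 + sp.1 + sp.2 * (starRingEnd ℂ) (a y' ^ x.2) = ze p q w := by
        rw [hsp, hbi, mul_pow, hai, map_mul]
        unfold ze
        have h5 : ((‖a y ^ x.2‖ ^ 2 : ℝ) : ℂ) ≠ 0 := by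
          exact_mod_cast pow_ne_zero 2 hAn
        show 1 + p + q * (a y ^ x.2 / ((‖a y ^ x.2‖ ^ 2 : ℝ) : ℂ)) *
          ((starRingEnd ℂ) (a y ^ x.2) * (starRingEnd ℂ) w) = _
        have h55 : a y ^ x.2 / ((‖a y ^ x.2‖ ^ 2 : ℝ) : ℂ) * (starRingEnd ℂ) (a y ^ x.2) = 1 := by
          rw [div_mul_eq_mul_div, hAc, div_self h5]
        linear_combination (q * (starRingEnd ℂ) w) * h55
      have hζ0 : ze p q w ≠ 0 := by
        intro h0
        unfold ze at h0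
        have h5 : (1 : ℂ) = -(p + q * (starRingEnd ℂ) w) := by linear_combination h0
        have h6 : ‖(1 : ℂ)‖ ≤ ‖p‖ + ‖q‖ := by
          rw [h5, norm_neg]
          refine (norm_add_le _ _).trans ?_
          rw [norm_mul, RCLike.norm_conj, hwn, mul_one]
        rw [norm_one] at h6
        linarith
      have hT' := hHx sp hsκ y'
      rw [hζ] at hT'
      have hθs : θ (i + 1) = θ i + (Complex.arg (ze p q w) / Real.pi / x.2 + (x.1 : ℝ) / x.2) := by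
        rw [hθ, hθ, Finset.sum_range_succ, ← hw]
        push_cast
        field_simp
        ring
      refine ⟨⟨Complex.arg (ze p q w) / Real.pi / x.2 + ((x.1 : ℝ) / x.2 - α) + T, ?_⟩, ?_, ?_⟩
      · rw [hT', hT, hFR, ← hR.add]
      · rw [hθs, ee_add, mul_pow, hai, ee_pow, hg]
        have h6 : (x.2 : ℝ) * (Complex.arg (ze p q w) / Real.pi / x.2 + (x.1 : ℝ) / x.2) =
            Complex.arg (ze p q w) / Real.pi + (x.1 : ℤ) := by
          field_simp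
        rw [h6, ee_add, ee_int, mul_one]
        have h7 : ee (Complex.arg (ze p q w) / Real.pi) = ze p q w / (starRingEnd ℂ) (ze p q w) :=
          exp_arg _ hζ0
        rw [h7]
      · rw [hT', haR, haF, hbi, hθs, ee_add (θ i), ← mul_assoc, ← mul_assoc, ← ee_add]
        have h8 : Complex.arg (ze p q w) / Real.pi / x.2 + ((x.1 : ℝ) / x.2 - α) + α =
          Complex.arg (ze p q w) / Real.pi / x.2 + (x.1 : ℝ) / x.2 := by ring
        rw [h8]
        ring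
  -- the orbit comes back
  have hHm : (H x sp)^[m] y = R t (F^[m] y) := by
    obtain ⟨⟨T, hT⟩, -, hbm⟩ := horb m
    rw [hθ, (hgj m kk rfl).2] at hbm
    obtain ⟨l, hl⟩ := hdiv
    have h1 : ((m : ℝ) * x.1 + Real.pi * kk / Real.pi) / x.2 = (l : ℤ) := by
      have h2 : (m : ℝ) * x.1 + kk = x.2 * l := by exact_mod_cast hl
      rw [mul_div_cancel_left₀ _ hpi, h2]
      field_simp
    rw [h1, ee_int, mul_one, hT] at hbm
    rw [hT]
    have h3 : ee T * a (F^[m] y) = ee t * a (F^[m] y) := by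
      rw [← haR, ← haR, hbm, hamy]
    have h4 : a (F^[m] y) ≠ 0 := by
      intro h0
      rw [haR, h0, mul_zero] at hamy
      exact hay0 hamy.symm
    have h5 : ee T = ee t := mul_right_cancel₀ h4 h3
    have h6 : ee (T - t) = 1 := by
      have h7 : ee (T - t) * ee t = 1 * ee t := by
        rw [← ee_add, sub_add_cancel, one_mul, h5]
      have h8 : ee t ≠ 0 := by
        intro h0
        have := ee_norm t
        rw [h0, norm_zero] at this
        exact zero_ne_one this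
      exact mul_right_cancel₀ h8 h7
    obtain ⟨l', hl'⟩ := ee_eq_one h6
    have h9 : R (T - t) (R t (F^[m] y)) = R t (F^[m] y) := by
      rw [hl', hR.int]
    rw [← hR.add, sub_add_cancel] at h9
    exact h9
  have hρx : ε ≤ κf x * ρ ^ (k x) / 2 := by
    refine (hε3.trans (hε'1 x hxS)).trans ?_
    have : (0 : ℝ) ≤ ρ ^ (k x) := by positivity
    have := mul_le_mul_of_nonneg_right (hκf x hxS) this
    linarith
  refine hCL sp y ρ m hsκ hyχ (hyε.trans_le (hε2.trans (hκf x hxS))) hρ0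
    (hρκ.trans_le (hκf x hxS)) hm1 ?_ ?_ ?_
  · rw [hHm]
    exact hmyχ
  · rw [hHm]
    calc ‖χ (R t (F^[m] y)) - χ y‖ ≤ ‖χ (R t (F^[m] y))‖ + ‖χ y‖ := norm_sub_le _ _
      _ < ε + ε := add_lt_add hmyε hyε
      _ = 2 * ε := by ring
      _ ≤ κf x * ρ ^ (k x) := by linarith
  · intro i hi0 him hiχ
    by_contra hcon
    push Not at hcon
    have h5 : ‖χ ((H x sp)^[i] y)‖ < 3 * ρ := by
      have h6 : χ ((H x sp)^[i] y) = (χ ((H x sp)^[i] y) - χ y) + χ y := by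
        rw [sub_add_cancel]
      rw [h6]
      have h7 := norm_add_le (χ ((H x sp)^[i] y) - χ y) (χ y)
      linarith
    have h6 := hρa _ hiχ h5
    have hηx := hη1 x hxS
    obtain ⟨-, hai, hbi⟩ := horb i
    have hδ1 : 0 < min δ 1 := lt_min hδ one_pos
    have h66 : ‖ee (θ i) - 1‖ < min δ 1 / x.2 := by
      have h67 : a y * (ee (θ i) - 1) = (a ((H x sp)^[i] y) - a z) - (a y - a z) := by
        rw [hbi]
        ring
      have h68 : ‖a y‖ * ‖ee (θ i) - 1‖ < η + η := by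
        rw [← norm_mul, h67]
        exact (norm_sub_le _ _).trans_lt (add_lt_add h6 hay)
      have h69 : 1 / 2 * ‖ee (θ i) - 1‖ ≤ ‖a y‖ * ‖ee (θ i) - 1‖ := by gcongr
      linarith
    by_cases hm : m ∣ i * kk
    · obtain ⟨j, hj⟩ := hm
      rw [hθ, (hgj i j hj).2, mul_div_cancel_left₀ _ hpi] at h66
      have h7 := hnd i j hi0 him hj
      have h8 := root_far x.2 hx1 _ h7
      push_cast at h8
      have h10 : min δ 1 / (x.2 : ℝ) ≤ 1 / x.2 := by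
        gcongr
        exact min_le_right _ _
      linarith
    · have h7 := hgi i hm
      have h8 := pow_sub_pow_le (ee_norm (θ i)) norm_one x.2
      rw [hai, one_pow] at h8
      have h10 : δ / x.2 ≤ ‖ee (θ i) - 1‖ := by
        rw [div_le_iff₀ hbr]
        linarith
      have h11 : min δ 1 / (x.2 : ℝ) ≤ δ / x.2 := by
        gcongr
        exact min_le_left _ _
      linarith

/-- `z` lies on a nonwandering circle of a circle action with which `F` commutes, on which a smooth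
eigenfunction with the character of the circle does not vanish. -/
structure IsRotPt (n : ℕ) (N : Type u) [TopologicalSpace N] [ChartedSpace (V n) N] (F : N → N)
    (z : N) : Prop where
  ex : ∃ (R : ℝ → N → N) (a : N → ℂ) (α : ℝ), CircleAct n N R ∧ ContMDiff (𝓡 n) 𝓘(ℝ, ℂ) ∞ a ∧
    (∀ t y, a (R t y) = Complex.exp (2 * Real.pi * Complex.I * t) * a y) ∧
    (∀ t y, F (R t y) = R t (F y)) ∧
    (∀ y, a (F y) = Complex.exp (2 * Real.pi * Complex.I * α) * a y) ∧ a z ≠ 0 ∧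
    ∀ W ∈ 𝓝 z, ∃ m : ℕ, 1 ≤ m ∧ ∃ y ∈ W, ∃ t : ℝ, R t (F^[m] y) ∈ W

theorem closable_rotPt {n : ℕ} {N : Type u} [TopologicalSpace N] [T2Space N] [CompactSpace N]
    [ChartedSpace (V n) N] [IsManifold (𝓡 n) ∞ N] (r : ℕ∞) (hr : 1 ≤ r)
    (F : DiffM n N r) (z : N) (h : IsRotPt n N F z) : Closable n N r F z := by
  obtain ⟨R, a, α, hR, ha, haR, hFR, haF, haz, hNW⟩ := h.ex
  have hn : ‖a z‖ ≠ 0 := norm_ne_zero_iff.2 haz
  have hnc : ((‖a z‖ : ℝ) : ℂ) ≠ 0 := by exact_mod_cast hn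
  refine main2 n N r hr R hR (fun y => (‖a z‖ : ℂ)⁻¹ * a y) ?_ ?_ F hFR α ?_ z ?_ hNW
  · have h1 : ContDiff ℝ ∞ (fun w : ℂ => (‖a z‖ : ℂ)⁻¹ * w) := contDiff_const.mul contDiff_id
    exact h1.contMDiff.comp ha
  · intro t y
    show (‖a z‖ : ℂ)⁻¹ * a (R t y) = ee t * ((‖a z‖ : ℂ)⁻¹ * a y)
    rw [haR]
    unfold ee
    ring
  · intro y
    show (‖a z‖ : ℂ)⁻¹ * a (F y) = ee α * ((‖a z‖ : ℂ)⁻¹ * a y)
    rw [haF]
    unfold ee
    ring
  · show ‖(‖a z‖ : ℂ)⁻¹ * a z‖ = 1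
    rw [norm_mul, norm_inv, Complex.norm_real, norm_norm, inv_mul_cancel₀ hn]

theorem main3 {n : ℕ} {N : Type u} [TopologicalSpace N] [T2Space N] [CompactSpace N]
    [ChartedSpace (V n) N] [IsManifold (𝓡 n) ∞ N] (r : ℕ∞) (hr : 1 ≤ r)
    (F : DiffM n N r) (z : N) (h : ∀ U : Set (DiffM n N r), IsOpen[strongTop n N r] U → F ∈ U →
      ∃ F' ∈ U, z ∈ closure {y | IsRotPt n N F' y}) :
    ∀ U : Set (DiffM n N r), IsOpen[strongTop n N r] U → F ∈ U → ∃ G ∈ U, IsPer G z := by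
  refine Pool.Agent.TH382.HS.closable_of_limit F z ?_
  intro U hU hFU
  obtain ⟨F', hF', hz⟩ := h U hU hFU
  refine ⟨F', hF', closure_mono (fun y hy => ?_) hz⟩
  exact closable_rotPt r hr F' y hy

end Pool.Agent.Y283.CR
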