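import Pool.Agent.Y283.CR.Main2
import Pool.Agent.W585.Param

/-! # Equivariant functions near free orbits; products -/

set_option autoImplicit false

open scoped Manifold ContDiff Topology
open Filter Set Metric MeasureTheory

universe u v w

namespace Pool.Agent.Y283.CR

open Pool.Agent.H718R2.G Pool.Agent.W564.SC

theorem smooth_avg {n : ℕ} {N : Type u} [TopologicalSpace N] [T2Space N]
    [ChartedSpace (V n) N] [IsManifold (𝓡 n) ∞ N] (g : ℝ × N → ℂ)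
    (hg : ContMDiff (𝓘(ℝ, ℝ).prod (𝓡 n)) 𝓘(ℝ, ℂ) ∞ g) (c d : ℝ) :
    ContMDiff (𝓡 n) 𝓘(ℝ, ℂ) ∞ (fun w => ∫ t in c..d, g (t, w)) := by
  intro w0
  obtain ⟨χ, hχ⟩ := Pool.Agent.W699.SC.gc n N w0
  obtain ⟨κ, hκ⟩ : ∃ κ : ContDiffBump (0 : V n), κ.rOut = 1 / 2 ∧ κ.rIn = 1 / 4 :=
    ⟨⟨1 / 4, 1 / 2, by norm_num, by norm_num⟩, rfl, rfl⟩
  have hsymm : ContMDiffOn 𝓘(ℝ, V n) (𝓡 n) ∞ χ.symm χ.target := contMDiffOn_symm_of_mem_maximalAtlas hχ.mem
  have hG : ContDiff ℝ ∞ (fun q : V n × ℝ => ((κ q.1 : ℝ) : ℂ) * g (q.2, χ.symm q.1)) := by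
    rw [contDiff_iff_contDiffAt]
    rintro ⟨p, t⟩
    by_cases hp : ‖p‖ < 1
    · have hpt : p ∈ χ.target := hχ.ball (by rw [mem_closedBall_zero_iff]; exact hp.le)
      have h1 : ContMDiffAt 𝓘(ℝ, V n) (𝓡 n) ∞ χ.symm p :=
        hsymm.contMDiffAt (χ.open_target.mem_nhds hpt)
      have h2 : ContMDiffAt 𝓘(ℝ, V n × ℝ) (𝓘(ℝ, ℝ).prod (𝓡 n)) ∞
          (fun q : V n × ℝ => (q.2, χ.symm q.1)) (p, t) := by
        refine ContMDiffAt.prodMk ?_ ?_
        · exact contDiff_snd.contMDiff.contMDiffAt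
        · exact ContMDiffAt.comp (p, t) (g := χ.symm) (f := fun q : V n × ℝ => q.1) h1
            contDiff_fst.contMDiff.contMDiffAt
      have h3 : ContMDiffAt 𝓘(ℝ, V n × ℝ) 𝓘(ℝ, ℂ) ∞
          (fun q : V n × ℝ => g (q.2, χ.symm q.1)) (p, t) :=
        ContMDiffAt.comp (p, t) (g := g) hg.contMDiffAt h2
      have h4 : ContDiffAt ℝ ∞ (fun q : V n × ℝ => g (q.2, χ.symm q.1)) (p, t) :=
        h3.contDiffAt
      have h5 : ContDiff ℝ ∞ (fun q : V n × ℝ => ((κ q.1 : ℝ) : ℂ)) :=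
        Complex.ofRealCLM.contDiff.comp (κ.contDiff.comp contDiff_fst)
      exact h5.contDiffAt.mul h4
    · push Not at hp
      have h1 : (fun q : V n × ℝ => ((κ q.1 : ℝ) : ℂ) * g (q.2, χ.symm q.1)) =ᶠ[𝓝 (p, t)]
          fun _ => (0 : ℂ) := by
        have h2 : ∀ᶠ q : V n × ℝ in 𝓝 (p, t), 1 / 2 < ‖q.1‖ := by
          have : ContinuousAt (fun q : V n × ℝ => ‖q.1‖) (p, t) := by fun_prop
          exact this.eventually (lt_mem_nhds (by
            show 1 / 2 < ‖p‖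
            linarith))
        filter_upwards [h2] with q hq
        have h3 : κ q.1 = 0 := by
          apply κ.zero_of_le_dist
          rw [hκ.1, dist_zero_right]
          exact hq.le
        rw [h3]
        simp
      exact contDiffAt_const.congr_of_eventuallyEq h1
  have hA := Pool.Agent.W585.contDiff_param
    (F := fun (p : V n) (t : ℝ) => ((κ p : ℝ) : ℂ) * g (t, χ.symm p)) hG c d
  have h1 : ContMDiffAt (𝓡 n) 𝓘(ℝ, V n) ∞ χ w0 :=
    contMDiffAt_of_mem_maximalAtlas hχ.mem hχ.src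
  have h2 : ContMDiffAt (𝓡 n) 𝓘(ℝ, ℂ) ∞
      (fun w => ∫ t in c..d, ((κ (χ w) : ℝ) : ℂ) * g (t, χ.symm (χ w))) w0 :=
    ContMDiffAt.comp w0 (g := fun p : V n => ∫ t in c..d, ((κ p : ℝ) : ℂ) * g (t, χ.symm p))
      (f := χ) hA.contMDiff.contMDiffAt h1
  refine h2.congr_of_eventuallyEq ?_
  have h5 : χ.source ∈ 𝓝 w0 := χ.open_source.mem_nhds hχ.src
  have h6 : ContinuousAt (fun y => ‖χ y‖) w0 := (χ.continuousAt hχ.src).norm
  have h7 : ∀ᶠ y in 𝓝 w0, ‖χ y‖ < 1 / 4 := by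
    have h8 : ‖χ w0‖ < 1 / 4 := by rw [hχ.zero, norm_zero]; norm_num
    exact h6.eventually_lt_const h8
  filter_upwards [h5, h7] with w hw1 hw2
  have h9 : κ (χ w) = 1 := by
    apply κ.one_of_mem_closedBall
    rw [hκ.2, mem_closedBall_zero_iff]
    exact hw2.le
  rw [h9, χ.left_inv hw1]
  simp

theorem slice {n : ℕ} {Y : Type u} [TopologicalSpace Y] [T2Space Y] [CompactSpace Y]
    [ChartedSpace (V n) Y] [IsManifold (𝓡 n) ∞ Y] (R : ℝ → Y → Y) (hR : CircleAct n Y R) (y : Y)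
    (hy : ∀ t : ℝ, R t y = y → ∃ l : ℤ, t = l) :
    ∃ a : Y → ℂ, ContMDiff (𝓡 n) 𝓘(ℝ, ℂ) ∞ a ∧ (∀ t w, a (R t w) = ee t * a w) ∧ a y ≠ 0 := by
  have hRc : Continuous (fun q : ℝ × Y => R q.1 q.2) := hR.smooth.continuous
  obtain ⟨K, hK⟩ : ∃ K : Set Y, K = (fun t => R t y) '' (Icc (1 / 8 : ℝ) (7 / 8)) := ⟨_, rfl⟩
  have hKc : IsCompact K := by
    rw [hK]
    exact isCompact_Icc.image (hRc.comp (continuous_id.prodMk continuous_const))
  have hyK : y ∉ K := by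
    rw [hK]
    rintro ⟨t, ht, hty⟩
    obtain ⟨l, hl⟩ := hy t hty
    have h1 : (0 : ℝ) < l := by rw [← hl]; linarith [ht.1]
    have h2 : (l : ℝ) < 1 := by rw [← hl]; linarith [ht.2]
    have h3 : 0 < l := by exact_mod_cast h1
    have h4 : l < 1 := by exact_mod_cast h2
    omega
  obtain ⟨φ, hφ0, hφ1, hφ2⟩ := exists_contMDiffMap_zero_one_of_isClosed (𝓡 n) (n := (⊤ : ℕ∞))
    hKc.isClosed (isClosed_singleton (x := y)) (disjoint_singleton_right.2 hyK)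
  obtain ⟨g, hg⟩ : ∃ g : ℝ × Y → ℂ, ∀ q, g q = ee (-q.1) * ((φ (R q.1 q.2) : ℝ) : ℂ) :=
    ⟨_, fun _ => rfl⟩
  have hee : ContDiff ℝ ∞ (fun t : ℝ => ee (-t)) := by
    unfold ee
    have h1 : ContDiff ℝ ∞ (fun t : ℝ => 2 * (Real.pi : ℂ) * Complex.I * (((-t : ℝ)) : ℂ)) :=
      contDiff_const.mul (Complex.ofRealCLM.contDiff.comp contDiff_neg)
    exact h1.cexp
  have hgs : ContMDiff (𝓘(ℝ, ℝ).prod (𝓡 n)) 𝓘(ℝ, ℂ) ∞ g := by
    have e : g = fun q => ee (-q.1) * ((φ (R q.1 q.2) : ℝ) : ℂ) := funext hg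
    rw [e]
    have h1 : ContMDiff (𝓘(ℝ, ℝ).prod (𝓡 n)) 𝓘(ℝ, ℂ) ∞ (fun q : ℝ × Y => ee (-q.1)) :=
      hee.contMDiff.comp contMDiff_fst
    have h2 : ContMDiff (𝓘(ℝ, ℝ).prod (𝓡 n)) 𝓘(ℝ, ℝ) ∞ (fun q : ℝ × Y => φ (R q.1 q.2)) :=
      φ.contMDiff.comp hR.smooth
    have h3 : ContMDiff (𝓘(ℝ, ℝ).prod (𝓡 n)) 𝓘(ℝ, ℂ) ∞
        (fun q : ℝ × Y => ((φ (R q.1 q.2) : ℝ) : ℂ)) :=
      (Complex.ofRealCLM.contDiff (n := ∞)).contMDiff.comp h2
    have h4 : ContDiff ℝ ∞ (fun q : ℂ × ℂ => q.1 * q.2) := contDiff_fst.mul contDiff_snd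
    exact h4.contMDiff.comp (h1.prodMk_space h3)
  refine ⟨fun w => ∫ t in (-(1 / 2) : ℝ)..(1 / 2), g (t, w), smooth_avg g hgs _ _, ?_, ?_⟩
  · intro s w
    have hper : Function.Periodic (fun t => g (t, w)) 1 := by
      intro t
      show g (t + 1, w) = g (t, w)
      rw [hg, hg]
      have h1 : ee (-(t + 1)) = ee (-t) := by
        have : -(t + 1) = -t + ((-1 : ℤ) : ℝ) := by push_cast; ring
        rw [this, ee_add, ee_int, mul_one]
      have h2 : R (t + 1) w = R t w := by rw [hR.add, hR.one]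
      show ee (-(t + 1)) * ((φ (R (t + 1) w) : ℝ) : ℂ) = ee (-t) * ((φ (R t w) : ℝ) : ℂ)
      rw [h1, h2]
    have h1 : ∀ t : ℝ, g (t, R s w) = ee s * g (t + s, w) := by
      intro t
      rw [hg, hg]
      show ee (-t) * ((φ (R t (R s w)) : ℝ) : ℂ) =
        ee s * (ee (-(t + s)) * ((φ (R (t + s) w) : ℝ) : ℂ))
      rw [← hR.add, ← mul_assoc, ← ee_add]
      congr 2
      ring
    show ∫ t in (-(1 / 2) : ℝ)..(1 / 2), g (t, R s w) = _
    simp only [h1]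
    rw [intervalIntegral.integral_const_mul]
    congr 1
    rw [intervalIntegral.integral_comp_add_right (fun t => g (t, w))]
    have h2 := hper.intervalIntegral_add_eq (-(1 / 2) + s) (-(1 / 2))
    have e1 : -(1 / 2) + s + 1 = 1 / 2 + s := by ring
    have e2 : (-(1 / 2) : ℝ) + 1 = 1 / 2 := by norm_num
    rw [e1, e2] at h2
    exact h2
  · -- nonvanishing
    have hcont : Continuous (fun t : ℝ => (g (t, y)).re) :=
      Complex.continuous_re.comp (hgs.continuous.comp (continuous_id.prodMk continuous_const))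
    have hint : IntervalIntegrable (fun t : ℝ => g (t, y)) volume (-(1 / 2)) (1 / 2) :=
      (hgs.continuous.comp (continuous_id.prodMk continuous_const)).intervalIntegrable _ _
    have hre : (∫ t in (-(1 / 2) : ℝ)..(1 / 2), g (t, y)).re =
        ∫ t in (-(1 / 2) : ℝ)..(1 / 2), (g (t, y)).re := by
      have := Complex.reCLM.intervalIntegral_comp_comm hint
      exact this.symm
    have hcos : ∀ t : ℝ, (ee (-t)).re = Real.cos (2 * Real.pi * t) := by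
      intro t
      unfold ee
      have : 2 * (Real.pi : ℂ) * Complex.I * (((-t : ℝ)) : ℂ) =
        ((-(2 * Real.pi * t) : ℝ) : ℂ) * Complex.I := by push_cast; ring
      rw [this, Complex.exp_ofReal_mul_I_re, Real.cos_neg]
    have hval : ∀ t : ℝ, (g (t, y)).re = Real.cos (2 * Real.pi * t) * φ (R t y) := by
      intro t
      rw [hg]
      show (ee (-t) * ((φ (R t y) : ℝ) : ℂ)).re = _
      rw [Complex.re_mul_ofReal, hcos]
    have hpi := Real.pi_pos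
    have hnn : ∀ t ∈ Ioc (-(1 / 2) : ℝ) (1 / 2), 0 ≤ (g (t, y)).re := by
      intro t ht
      rw [hval]
      by_cases h8 : |t| < 1 / 8
      · refine mul_nonneg ?_ (hφ2 _).1
        apply Real.cos_nonneg_of_neg_pi_div_two_le_of_le
        · have := (abs_lt.1 h8).1
          nlinarith
        · have := (abs_lt.1 h8).2
          nlinarith
      · push Not at h8
        have h9 : φ (R t y) = 0 := by
          apply hφ0
          rw [hK]
          rcases le_or_gt 0 t with h0 | h0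
          · rw [abs_of_nonneg h0] at h8
            exact ⟨t, ⟨h8, by linarith [ht.2]⟩, rfl⟩
          · rw [abs_of_neg h0] at h8
            refine ⟨t + 1, ⟨by linarith [ht.1], by linarith⟩, ?_⟩
            show R (t + 1) y = R t y
            rw [hR.add, hR.one]
        rw [h9]
        simp
    have h0 : 0 < (g (0, y)).re := by
      rw [hval, hR.zero, hφ1 (mem_singleton y)]
      simp
    intro hzero
    have hz2 : ∫ t in (-(1 / 2) : ℝ)..(1 / 2), (g (t, y)).re = 0 := by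
      rw [← hre]
      show (∫ t in (-(1 / 2) : ℝ)..(1 / 2), g (t, y)).re = 0
      rw [show (∫ t in (-(1 / 2) : ℝ)..(1 / 2), g (t, y)) = 0 from hzero]
      simp
    have hpos : 0 < ∫ t in (-(1 / 2) : ℝ)..(1 / 2), (g (t, y)).re := by
      apply intervalIntegral.integral_pos (by norm_num) hcont.continuousOn hnn
      exact ⟨0, ⟨by norm_num, by norm_num⟩, h0⟩
    linarith

/-- Products `f × R_β`, `f` an arbitrary homeomorphism of `M`, `R` a circle action on `Y`. -/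
theorem product_rotPt {n n₁ n₂ : ℕ} {N : Type u} {M : Type v} {Y : Type w} [TopologicalSpace N] [T2Space N]
    [CompactSpace N] [ChartedSpace (V n) N] [IsManifold (𝓡 n) ∞ N]
    [TopologicalSpace M] [ChartedSpace (V n₁) M] [IsManifold (𝓡 n₁) ∞ M]
    [TopologicalSpace Y] [T2Space Y] [CompactSpace Y] [ChartedSpace (V n₂) Y]
    [IsManifold (𝓡 n₂) ∞ Y]
    (Θ : Diffeomorph (𝓡 n) ((𝓡 n₁).prod (𝓡 n₂)) N (M × Y) ∞)
    (f : M → M) (R : ℝ → Y → Y) (hR : CircleAct n₂ Y R) (β : ℝ) (F : N → N)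
    (hF : ∀ w, Θ (F w) = (f (Θ w).1, R β (Θ w).2)) (z : N)
    (hx : NonWand f (Θ z).1) (hy : ∀ t : ℝ, R t (Θ z).2 = (Θ z).2 → ∃ l : ℤ, t = l) :
    IsRotPt n N F z := by
  obtain ⟨a, ha, haR, hay⟩ := slice R hR (Θ z).2 hy
  have hΘ : ∀ w, Θ (Θ.symm w) = w := fun w => Θ.apply_symm_apply w
  have hFi : ∀ (i : ℕ) w, Θ (F^[i] w) = (f^[i] (Θ w).1, R (i * β) (Θ w).2) := by
    intro i w
    induction i with
    | zero =>
      simp [hR.zero]
    | succ i ih =>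
      rw [Function.iterate_succ_apply', hF, ih, Function.iterate_succ_apply', ← hR.add]
      congr 2
      push_cast
      ring
  refine ⟨⟨fun t w => Θ.symm ((Θ w).1, R t (Θ w).2), fun w => a (Θ w).2, β, ⟨?_, ?_, ?_, ?_⟩, ?_,
    ?_, ?_, ?_, hay, ?_⟩⟩
  · have h1 : ContMDiff (𝓘(ℝ, ℝ).prod (𝓡 n)) ((𝓡 n₁).prod (𝓡 n₂)) ∞
        (fun q : ℝ × N => Θ q.2) := Θ.contMDiff.comp contMDiff_snd
    have h2 : ContMDiff (𝓘(ℝ, ℝ).prod (𝓡 n)) (𝓘(ℝ, ℝ).prod (𝓡 n₂)) ∞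
        (fun q : ℝ × N => (q.1, (Θ q.2).2)) :=
      contMDiff_fst.prodMk (contMDiff_snd.comp h1)
    have h3 : ContMDiff (𝓘(ℝ, ℝ).prod (𝓡 n)) (𝓡 n₂) ∞
        (fun q : ℝ × N => R q.1 (Θ q.2).2) := hR.smooth.comp h2
    have h4 : ContMDiff (𝓘(ℝ, ℝ).prod (𝓡 n)) ((𝓡 n₁).prod (𝓡 n₂)) ∞
        (fun q : ℝ × N => ((Θ q.2).1, R q.1 (Θ q.2).2)) :=
      (contMDiff_fst.comp h1).prodMk h3
    exact Θ.symm.contMDiff.comp h4
  · intro w
    show Θ.symm ((Θ w).1, R 0 (Θ w).2) = w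
    rw [hR.zero]
    exact Θ.symm_apply_apply w
  · intro s t w
    show Θ.symm ((Θ w).1, R (s + t) (Θ w).2) = Θ.symm ((Θ (Θ.symm ((Θ w).1, R t (Θ w).2))).1,
      R s (Θ (Θ.symm ((Θ w).1, R t (Θ w).2))).2)
    rw [hΘ, hR.add]
  · intro w
    show Θ.symm ((Θ w).1, R 1 (Θ w).2) = w
    rw [hR.one]
    exact Θ.symm_apply_apply w
  · exact ha.comp (contMDiff_snd.comp Θ.contMDiff)
  · intro t w
    show a (Θ (Θ.symm ((Θ w).1, R t (Θ w).2))).2 = _
    rw [hΘ]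
    exact haR t _
  · intro t w
    show F (Θ.symm ((Θ w).1, R t (Θ w).2)) = Θ.symm ((Θ (F w)).1, R t (Θ (F w)).2)
    apply Θ.injective
    show Θ (F (Θ.symm ((Θ w).1, R t (Θ w).2))) = Θ (Θ.symm ((Θ (F w)).1, R t (Θ (F w)).2))
    rw [hF, hΘ, hΘ, hF]
    show (f (Θ w).1, R β (R t (Θ w).2)) = (f (Θ w).1, R t (R β (Θ w).2))
    rw [← hR.add, ← hR.add, add_comm]
  · intro w
    show a (Θ (F w)).2 = _
    rw [hF]
    exact haR β _
  · intro W hW
    have h1 : Tendsto Θ.symm (𝓝 ((Θ z).1, (Θ z).2)) (𝓝 z) := by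
      have h2 := Θ.symm.continuous.tendsto (Θ z)
      rw [Θ.symm_apply_apply] at h2
      exact h2
    have h3 := h1 hW
    rw [nhds_prod_eq, Filter.mem_map] at h3
    obtain ⟨A, hA, B, hB, hAB⟩ := Filter.mem_prod_iff.1 h3
    obtain ⟨m, hm1, x', hx', hmx'⟩ := hx A hA
    refine ⟨m, hm1, Θ.symm (x', (Θ z).2), hAB ⟨hx', mem_of_mem_nhds hB⟩, -(m * β), ?_⟩
    show Θ.symm ((Θ (F^[m] (Θ.symm (x', (Θ z).2)))).1,
      R (-(m * β)) (Θ (F^[m] (Θ.symm (x', (Θ z).2)))).2) ∈ W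
    rw [hFi, hΘ]
    show Θ.symm (f^[m] x', R (-(m * β)) (R (m * β) (Θ z).2)) ∈ W
    rw [← hR.add, neg_add_cancel, hR.zero]
    exact hAB ⟨hmx', mem_of_mem_nhds hB⟩

end Pool.Agent.Y283.CR
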